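import Pool.Agent.U849.SS.Main
import Pool.Agent.R401.Tr6

/-!
# Galois representations with many supersingular places
-/

set_option autoImplicit false
set_option linter.unusedSectionVars false

namespace Pool.Agent.U849.SS

open Module MeasureTheory MeasureTheory.Measure
open scoped ENNReal

section measure

variable {G : Type} [Group G] [TopologicalSpace G] [IsTopologicalGroup G] [CompactSpace G]
  [TotallyDisconnectedSpace G] [MeasurableSpace G] [BorelSpace G] (μ : Measure G)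
  [μ.IsMulLeftInvariant] [IsProbabilityMeasure μ] [μ.OuterRegular]

/-- closed sets which meet many cosets have large measure -/
theorem measure_ge {X : Set G} (hX : IsClosed X) {s : ℝ}
    (h : ∀ U : Subgroup G, IsOpen (U : Set G) → ∀ A : Finset G,
      (∀ g ∈ X, ∃ a ∈ A, a⁻¹ * g ∈ U) → s * U.index ≤ A.card) : ENNReal.ofReal s ≤ μ X := by
  classical
  by_contra hcon
  rw [not_le] at hcon
  obtain ⟨O, hXO, hO, hOlt⟩ := X.exists_isOpen_lt_of_lt _ hcon
  obtain ⟨U, hUn, hUo, -, hXU⟩ := exists_normal_mul_subset hX.isCompact hO hXO ⊤ isOpen_univ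
  have hfinQ : Finite (G ⧸ U) := Subgroup.quotient_finite_of_isOpen _ hUo
  have hfi : U.FiniteIndex := Subgroup.finiteIndex_of_finite_quotient
  have hft : Fintype (G ⧸ U) := Fintype.ofFinite _
  set q : G → G ⧸ U := fun g => (g : G ⧸ U) with hq
  set T : Finset (G ⧸ U) := Finset.univ.filter fun t => ∃ x ∈ X, q x = t with hT
  have hfib : ∀ x : G, q ⁻¹' {q x} = {y | x⁻¹ * y ∈ U} := by
    intro x
    ext y
    rw [Set.mem_preimage, Set.mem_singleton_iff]
    change ((y : G ⧸ U) = (x : G ⧸ U)) ↔ _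
    rw [eq_comm, QuotientGroup.eq]
    rfl
  have hcl : ∀ t : G ⧸ U, MeasurableSet (q ⁻¹' {t}) := by
    intro t
    obtain ⟨x, rfl⟩ := QuotientGroup.mk_surjective t
    have h1 : q ⁻¹' {q x} = (fun y => x⁻¹ * y) ⁻¹' (U : Set G) := hfib x
    change MeasurableSet (q ⁻¹' {q x})
    rw [h1]
    exact (hUo.preimage (continuous_const.mul continuous_id)).measurableSet
  have hmeas : ∀ t : G ⧸ U, μ (q ⁻¹' {t}) = μ (U : Set G) := by
    intro t
    obtain ⟨x, rfl⟩ := QuotientGroup.mk_surjective t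
    change μ (q ⁻¹' {q x}) = _
    rw [hfib, measure_coset]
  have hcount : s * U.index ≤ T.card := by
    have h1 := h U hUo (T.image Quotient.out) (by
      intro g hg
      refine ⟨Quotient.out (q g), Finset.mem_image_of_mem _ (Finset.mem_filter.2
        ⟨Finset.mem_univ _, g, hg, rfl⟩), ?_⟩
      rw [← QuotientGroup.eq]
      exact QuotientGroup.out_eq' _)
    refine h1.trans ?_
    exact_mod_cast Finset.card_image_le
  have hsum : (T.card : ℝ≥0∞) * μ (U : Set G) ≤ μ O := by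
    calc (T.card : ℝ≥0∞) * μ (U : Set G) = ∑ t ∈ T, μ (q ⁻¹' {t}) := by
          rw [Finset.sum_congr rfl fun t _ => hmeas t, Finset.sum_const, nsmul_eq_mul]
      _ = μ (⋃ t ∈ T, q ⁻¹' {t}) := by
          rw [measure_biUnion_finset]
          · intro a _ b _ hab
            refine Set.disjoint_left.2 fun y hy hy' => hab ?_
            exact (Set.mem_singleton_iff.1 hy).symm.trans (Set.mem_singleton_iff.1 hy')
          · intro t _
            exact hcl t
      _ ≤ μ O := by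
          refine measure_mono fun y hy => ?_
          rw [Set.mem_iUnion₂] at hy
          obtain ⟨t, ht, hyt⟩ := hy
          obtain ⟨x, hx, rfl⟩ := (Finset.mem_filter.1 ht).2
          rw [hfib] at hyt
          have := hXU x hx _ hyt
          rwa [mul_inv_cancel_left] at this
  have hidx := Subgroup.index_mul_measure U hUo.measurableSet μ
  rw [measure_univ] at hidx
  have h2 : ENNReal.ofReal s ≤ (T.card : ℝ≥0∞) * μ (U : Set G) := by
    calc ENNReal.ofReal s = ENNReal.ofReal s * ((U.index : ℝ≥0∞) * μ (U : Set G)) := by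
          rw [hidx, mul_one]
      _ = ENNReal.ofReal (s * U.index) * μ (U : Set G) := by
          rw [← mul_assoc, ENNReal.ofReal_mul' (Nat.cast_nonneg _), ENNReal.ofReal_natCast]
      _ ≤ ENNReal.ofReal (T.card : ℝ) * μ (U : Set G) := by
          gcongr
      _ = (T.card : ℝ≥0∞) * μ (U : Set G) := by rw [ENNReal.ofReal_natCast]
  exact absurd hOlt (not_lt.2 (h2.trans hsum))

end measure

open NumberField Filter Topology IsDedekindDomain Pool.Agent.W401.Cheb Pool.Agent.R401.Sup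
open Pool.Agent.W569.FM Pool.Agent.R401.Img Pool.Agent.R401.Eng Pool.Agent.R401.Sup2
open Pool.Agent.R401.Sup3 Pool.Agent.R401.Sup4

variable {K : Type} [Field K] [NumberField K] {n : ℕ}

section one

variable {ℓ : ℕ} [Fact ℓ.Prime]

/-- one prime `ℓ` -/
theorem one_trace (hn : 0 < n) (ρ : GK K →* GL (Fin n) ℚ_[ℓ]) (hρ : Continuous ρ) (u : ℕ) {M : ℕ} (hM : 0 < M)
    (P : Set (HeightOneSpectrum (𝓞 K)))
    (hP : ∀ v ∈ P, (ℓ : 𝓞 K) ∉ v.asIdeal → ∀ g, IsFrob v g →
      (mt ρ g⁻¹ ^ M - (((Ideal.absNorm v.asIdeal) ^ u : ℕ) : Matrix (Fin n) (Fin n) ℚ_[ℓ]) ^ M) ^ n = 0)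
    (θ : ℝ) (hθ : θ * n < 1)
    (hdens : ∃ᶠ N : ℕ in atTop, dens (fun v : HeightOneSpectrum (𝓞 K) => v ∉ P) N ≤ θ) :
    ∃ U : Subgroup (GK K), U.Normal ∧ IsOpen (U : Set (GK K)) ∧
      ∀ x ∈ U, ∀ y, (tw ρ (cyc K ℓ ℚ_[ℓ]) (-(u : ℤ)) (x * y)).trace =
        (tw ρ (cyc K ℓ ℚ_[ℓ]) (-(u : ℤ)) y).trace := by
  classical
  set ρ' := tw ρ (cyc K ℓ ℚ_[ℓ]) (-(u : ℤ)) with hρ'
  have hcont : Continuous ρ' := Pool.Agent.R401.Tr6.continuous_tw ρ hρ u
  set Good : Set (GK K) := {g | (ρ' g ^ M - 1) ^ n = 0} with hGood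
  have hcl : IsClosed Good := isClosed_singleton.preimage (f := fun g => (ρ' g ^ M - 1) ^ n)
    (((hcont.pow M).sub continuous_const).pow n)
  have hconj : ∀ g ∈ Good, ∀ x : GK K, x * g * x⁻¹ ∈ Good := by
    intro g hg x
    have h1 : ρ' x * ρ' x⁻¹ = 1 := by rw [← map_mul, mul_inv_cancel, map_one]
    have h2 : ρ' x⁻¹ * ρ' x = 1 := by rw [← map_mul, inv_mul_cancel, map_one]
    have h3 : ∀ k : ℕ, ρ' (x * g * x⁻¹) ^ k = ρ' x * ρ' g ^ k * ρ' x⁻¹ := by
      intro k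
      induction k with
      | zero => rw [pow_zero, pow_zero, mul_one, h1]
      | succ k ih =>
        rw [pow_succ, ih, map_mul, map_mul, pow_succ]
        simp only [mul_assoc]
        rw [← mul_assoc (ρ' x⁻¹) (ρ' x), h2, one_mul]
    have h4 : ρ' (x * g * x⁻¹) ^ M - 1 = ρ' x * (ρ' g ^ M - 1) * ρ' x⁻¹ := by
      rw [h3, mul_sub, sub_mul, mul_one, h1]
    have h5 : ∀ k : ℕ, (ρ' (x * g * x⁻¹) ^ M - 1) ^ k = ρ' x * (ρ' g ^ M - 1) ^ k * ρ' x⁻¹ := by
      intro k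
      induction k with
      | zero => rw [pow_zero, pow_zero, mul_one, h1]
      | succ k ih =>
        rw [pow_succ, ih, h4, pow_succ]
        simp only [mul_assoc]
        rw [← mul_assoc (ρ' x⁻¹) (ρ' x), h2, one_mul]
    change (ρ' (x * g * x⁻¹) ^ M - 1) ^ n = 0
    have h6 : (ρ' g ^ M - 1) ^ n = 0 := hg
    rw [h5, h6, mul_zero, zero_mul]
  -- Frobenius elements
  have hfrob : ∀ v ∈ P, (ℓ : 𝓞 K) ∉ v.asIdeal → ∀ g, IsFrob v g → g ∈ Good := by
    intro v hv hℓ g hg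
    have h1 := hP v hv hℓ g hg
    have hc := cyc_frob ℓ ℚ_[ℓ] hℓ hg
    set s : ℚ_[ℓ] := ((Ideal.absNorm v.asIdeal : ℚ_[ℓ])) ^ u with hs
    have hN0 : (Ideal.absNorm v.asIdeal : ℚ_[ℓ]) ≠ 0 := by
      rw [← hc]
      exact c_ne _ g
    have hs0 : s ≠ 0 := pow_ne_zero _ hN0
    have h2 : ρ' g⁻¹ = s⁻¹ • mt ρ g⁻¹ := by
      rw [hρ', Pool.Agent.R401.Sup4.tw_apply, c_inv, hc, neg_neg, zpow_natCast, inv_pow]
    have h3 : (ρ' g⁻¹ ^ M - 1) ^ n = 0 := by
      have h4 : ρ' g⁻¹ ^ M - 1 = (s⁻¹) ^ M • (mt ρ g⁻¹ ^ M -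
          (((Ideal.absNorm v.asIdeal) ^ u : ℕ) : Matrix (Fin n) (Fin n) ℚ_[ℓ]) ^ M) := by
        rw [h2, _root_.smul_pow, smul_sub]
        congr 1
        have h5 : (((Ideal.absNorm v.asIdeal) ^ u : ℕ) : Matrix (Fin n) (Fin n) ℚ_[ℓ]) = s • 1 := by
          rw [hs, Nat.cast_pow, ← Nat.cast_pow, ← Nat.cast_pow, Nat.cast_smul_eq_nsmul, nsmul_one]
        rw [h5, _root_.smul_pow, one_pow, smul_smul, ← mul_pow, inv_mul_cancel₀ hs0, one_pow, one_smul]
      rw [h4, _root_.smul_pow, h1, smul_zero]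
    have h4 : ρ' g * ρ' g⁻¹ = 1 := by rw [← map_mul, mul_inv_cancel, map_one]
    have hcomm : Commute (ρ' g) (ρ' g⁻¹) := by
      change ρ' g * ρ' g⁻¹ = ρ' g⁻¹ * ρ' g
      rw [← map_mul, ← map_mul, mul_inv_cancel, inv_mul_cancel]
    have h5 : ρ' g ^ M - 1 = -(ρ' g ^ M) * (ρ' g⁻¹ ^ M - 1) := by
      rw [mul_sub, mul_one, neg_mul, ← hcomm.mul_pow, h4, one_pow]
      abel
    have h6 : Commute (-(ρ' g ^ M)) (ρ' g⁻¹ ^ M - 1) :=
      ((hcomm.pow_pow M M).neg_left).sub_right (Commute.one_right _)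
    change (ρ' g ^ M - 1) ^ n = 0
    rw [h5, h6.mul_pow, h3, mul_zero]
  -- the density
  set ε : ℝ := (1 - θ * n) / (2 * n) with hε
  have hn' : (0 : ℝ) < n := by exact_mod_cast hn
  have hε0 : 0 < ε := div_pos (by linarith) (by positivity)
  have hθε : (θ + ε) * n < 1 := by
    have h1 : ε * n = (1 - θ * n) / 2 := by
      rw [hε]
      field_simp
    rw [add_mul, h1]
    linarith
  have hfreq : ∃ᶠ N : ℕ in atTop,
      dens (fun v : HeightOneSpectrum (𝓞 K) => ∃ g, IsFrob v g ∧ g ∉ Good) N ≤ θ + ε := by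
    have hBd : ∀ᶠ N : ℕ in atTop, dens (fun v : HeightOneSpectrum (𝓞 K) => (ℓ : 𝓞 K) ∈ v.asIdeal) N ≤ ε :=
      (dens_fin (fun v : HeightOneSpectrum (𝓞 K) => (ℓ : 𝓞 K) ∈ v.asIdeal)
        (Pool.Agent.W352.ChAbs.over_le ℓ (Fact.out : ℓ.Prime)).1).eventually (ge_mem_nhds hε0)
    refine (hdens.and_eventually hBd).mono ?_
    rintro N ⟨h1, h2⟩
    have h5 : dens (fun v : HeightOneSpectrum (𝓞 K) => ∃ g, IsFrob v g ∧ g ∉ Good) N ≤
        dens (fun v : HeightOneSpectrum (𝓞 K) => v ∉ P ∨ (ℓ : 𝓞 K) ∈ v.asIdeal) N := by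
      refine dens_le ?_ N
      rintro v ⟨g, hg, hgG⟩
      by_contra hcon
      push Not at hcon
      exact hgG (hfrob v hcon.1 hcon.2 g hg)
    have h6 := h5.trans (card_or _ _ N)
    linarith
  -- the measure
  let _m : MeasurableSpace (GK K) := borel _
  have _b : BorelSpace (GK K) := ⟨rfl⟩
  let K₀ : TopologicalSpace.PositiveCompacts (GK K) := ⊤
  let μ : Measure (GK K) := haarMeasure K₀
  have hμ1 : IsProbabilityMeasure μ := ⟨by
    have h1 := haarMeasure_self (K₀ := K₀)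
    exact h1⟩
  have hμX : ENNReal.ofReal (1 - (θ + ε)) ≤ μ Good := by
    refine measure_ge μ hcl fun W hW A hA => ?_
    have h1 := engine Good hcl hconj hfreq (fun _ : Fin 1 => 1) W hW A (by
      intro g hg
      have h2 := hg 0
      rw [mul_one] at h2
      exact hA g h2)
    simpa using h1
  have hμn : (n : ℝ≥0∞) < n * μ Good + 1 := by
    have h1 : (n : ℝ≥0∞) * ENNReal.ofReal (1 - (θ + ε)) ≤ n * μ Good := by gcongr
    refine lt_of_lt_of_le ?_ (add_le_add_left h1 1)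
    have h2 : (n : ℝ≥0∞) * ENNReal.ofReal (1 - (θ + ε)) + 1 = ENNReal.ofReal (n * (1 - (θ + ε))) + ENNReal.ofReal 1 := by
      rw [ENNReal.ofReal_mul (Nat.cast_nonneg _), ENNReal.ofReal_natCast, ENNReal.ofReal_one]
    rw [h2]
    refine lt_of_lt_of_le ?_ ENNReal.ofReal_add_le
    rw [← ENNReal.ofReal_natCast, ENNReal.ofReal_lt_ofReal_iff]
    · nlinarith
    · nlinarith
  -- the representation over the algebraic closure
  let F := PadicAlgCl ℓ
  let ρF : GK K →* End F (Fin n → F) :=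
    (Matrix.toLinAlgEquiv' : Matrix (Fin n) (Fin n) F ≃ₐ[F] End F (Fin n → F)).toMonoidHom.comp
      ((algebraMap ℚ_[ℓ] F).mapMatrix.toMonoidHom.comp ρ')
  have hρF : ∀ g, ρF g = Matrix.toLin' ((ρ' g).map (algebraMap ℚ_[ℓ] F)) := fun g => rfl
  have hcts : Cts ρF := by
    intro φ v
    have h1 : (fun g => φ (ρF g v)) = fun g => ∑ i, (∑ j, algebraMap ℚ_[ℓ] F (ρ' g i j) * v j) *
        φ (fun j => if i = j then 1 else 0) := by
      funext g
      rw [LinearMap.pi_apply_eq_sum_univ φ, hρF, Matrix.toLin'_apply]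
      rfl
    rw [h1]
    have h3 : ∀ i j, Continuous fun g => algebraMap ℚ_[ℓ] F (ρ' g i j) := fun i j =>
      (continuous_algebraMap ℚ_[ℓ] F).comp (hcont.matrix_elem i j)
    have h4 : ∀ i, Continuous fun g => ∑ j, algebraMap ℚ_[ℓ] F (ρ' g i j) * v j := fun i =>
      continuous_finsetSum _ fun j _ => (h3 i j).mul continuous_const
    exact continuous_finsetSum _ fun i _ => (h4 i).mul continuous_const
  obtain ⟨U, hUn, hUo, hU⟩ := main μ hcl hμn (N := n) hM n (Fin n → F) ρF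
    (by rw [Module.finrank_fin_fun]) (by rw [Module.finrank_fin_fun]) hcts (by
      intro x hx
      have h1 : (ρ' x ^ M - 1) ^ n = 0 := hx
      have h2 := congrArg (fun A => (Matrix.toLinAlgEquiv' : Matrix (Fin n) (Fin n) F ≃ₐ[F] End F (Fin n → F))
        ((algebraMap ℚ_[ℓ] F).mapMatrix A)) h1
      simp only [map_pow, map_sub, map_one, map_zero] at h2
      exact h2)
  refine ⟨U, hUn, hUo, fun x hx y => ?_⟩
  have h1 := hU x hx y
  rw [hρF, hρF, Matrix.trace_toLin'_eq, Matrix.trace_toLin'_eq] at h1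
  apply (algebraMap ℚ_[ℓ] F).injective
  have h2 : ∀ A : Matrix (Fin n) (Fin n) ℚ_[ℓ], (A.map (algebraMap ℚ_[ℓ] F)).trace =
      algebraMap ℚ_[ℓ] F A.trace := by
    intro A
    simp [Matrix.trace, _root_.map_sum]
  rw [h2, h2] at h1
  exact h1

end one

end Pool.Agent.U849.SS
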