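import Pool.Agent.U849.SS.Irr

/-!
# The theorem on profinite groups
-/

set_option autoImplicit false
set_option linter.unusedSectionVars false

namespace Pool.Agent.U849.SS

open Module MeasureTheory MeasureTheory.Measure
open scoped ENNReal

variable {K : Type} [Field K] [IsAlgClosed K] [TopologicalSpace K] [T1Space K]
  {G : Type} [Group G] [TopologicalSpace G] [IsTopologicalGroup G] [CompactSpace G]
  [TotallyDisconnectedSpace G] [MeasurableSpace G] [BorelSpace G]

section

variable {V : Type} [AddCommGroup V] [Module K V] [FiniteDimensional K V]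

/-- the matrix coefficients are continuous -/
def Cts (ρ : G →* End K V) : Prop := ∀ (φ : Dual K V) (v : V), Continuous fun g => φ (ρ g v)

theorem Cts.isClosed {ρ : G →* End K V} (h : Cts ρ) (v w : V) : IsClosed {g | ρ g v = w} := by
  have h1 : {g | ρ g v = w} = ⋂ φ : Dual K V, (fun g => φ (ρ g v)) ⁻¹' {φ w} := by
    ext g
    rw [Set.mem_iInter]
    constructor
    · intro hg φ
      have hg' : ρ g v = w := hg
      change φ (ρ g v) = φ w
      rw [hg']
    · intro hg
      change ρ g v = w
      rw [← sub_eq_zero, ← Module.forall_dual_apply_eq_zero_iff K]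
      intro φ
      rw [map_sub]
      exact sub_eq_zero.2 (hg φ)
  rw [h1]
  exact isClosed_iInter fun φ => isClosed_singleton.preimage (h φ v)

theorem hG (U : Subgroup G) (hU : IsOpen (U : Set G)) :
    ∃ U' : Subgroup G, U'.Normal ∧ IsOpen (U' : Set G) ∧ U' ≤ U := by
  obtain ⟨N, hN⟩ := ProfiniteGrp.exist_openNormalSubgroup_sub_open_nhds_of_one hU U.one_mem
  exact ⟨N.toSubgroup, N.isNormal', N.isOpen', hN⟩

variable {ρ : G →* End K V} {U₀ : Subgroup G} {W : Submodule K V} (μ : Measure G)
  [μ.IsMulLeftInvariant] [IsFiniteMeasure μ] [μ.OuterRegular]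

/-- the minimal subspace is fixed by an open subgroup -/
theorem trivial_on (hρ : Cts ρ) (hM : MinSub ρ U₀ W) {X : Set G} (hX : IsClosed X)
    (hpos : μ (X ∩ (HH hM : Set G)) ≠ 0) {M N : ℕ} (hM0 : 0 < M)
    (hgood : ∀ x ∈ X, (ρ x ^ M - 1) ^ N = 0) :
    ∃ U : Subgroup G, IsOpen (U : Set G) ∧ ∀ u ∈ U, ∀ w ∈ W, ρ u w = w := by
  classical
  obtain ⟨-, -, hHo⟩ := index_le hM
  obtain ⟨U, g, hUn, hUo, hUU₀, hg, hgU⟩ := coset_good (ρ := ρ) μ
    (hX.inter (Subgroup.isClosed_of_isOpen _ hHo)) hpos U₀ hM.isOpen (M := M) (N := N)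
    (fun x hx => hgood x hx.1)
  obtain ⟨U', hle, hU'o, hU'U, f, c, c', hf, hcc, hfc⟩ := eigen hM (h := g) hg.2 hG U hUo
  set r := res ρ (fun u hu => hM.stb u (hle hu)) with hr
  have hnt : Nontrivial W := Submodule.nontrivial_iff_ne_bot.2 hM.ne_bot
  have hfin := finite_trace (K := K) (V := W) hM0 N
  have hgood' : ∀ u : U', ((c * r u) ^ M - 1) ^ N = 0 := by
    intro u
    have h1 := hgU (g * u) (by rw [inv_mul_cancel_left]; exact hU'U u.2)
    have h2 : ∀ w, f ((c * r u) w) = ρ (g * u) (f w) := hfc u
    have h3 : ∀ (k : ℕ) w, f (((c * r u) ^ k) w) = (ρ (g * u) ^ k) (f w) := by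
      intro k
      induction k with
      | zero => intro w; simp
      | succ k ih => intro w; rw [pow_succ', Module.End.mul_apply, h2, ih, pow_succ', Module.End.mul_apply]
    have h4 : ∀ w, f (((c * r u) ^ M - 1) w) = (ρ (g * u) ^ M - 1) (f w) := by
      intro w
      rw [LinearMap.sub_apply, map_sub, h3, LinearMap.sub_apply, Module.End.one_apply, Module.End.one_apply]
    have h5 : ∀ (k : ℕ) w, f ((((c * r u) ^ M - 1) ^ k) w) = ((ρ (g * u) ^ M - 1) ^ k) (f w) := by
      intro k
      induction k with
      | zero => intro w; simp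
      | succ k ih => intro w; rw [pow_succ', Module.End.mul_apply, h4, ih, pow_succ', Module.End.mul_apply]
    apply LinearMap.ext
    intro w
    apply hf
    rw [h5, h1, LinearMap.zero_apply, LinearMap.zero_apply, map_zero]
  have hrange := finite_image r (by
    intro T hT
    have hst : Stb ρ U' (T.map W.subtype) := by
      rintro u hu _ ⟨w, hw, rfl⟩
      exact ⟨r ⟨u, hu⟩ w, hT ⟨u, hu⟩ w hw, rfl⟩
    rcases hM.min U' _ hU'o hst (by rintro _ ⟨w, -, rfl⟩; exact w.2) with h1 | h1
    · left
      rw [eq_bot_iff]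
      intro w hw
      have h2 : (w : V) ∈ T.map W.subtype := ⟨w, hw, rfl⟩
      rw [h1] at h2
      exact Subtype.ext ((Submodule.mem_bot K).1 h2)
    · right
      rw [eq_top_iff]
      rintro w -
      have h2 : (w : V) ∈ T.map W.subtype := by rw [h1]; exact w.2
      obtain ⟨w', hw', hww⟩ := h2
      have h3 : w' = w := Subtype.ext hww
      rw [← h3]
      exact hw') c c' hcc hfin (fun u => ⟨_, hgood' u, rfl⟩)
  -- the kernel
  have hker : IsClosed (r.ker : Set U') := by
    have h1 : (r.ker : Set U') = ⋂ w : W, (fun u : U' => (u : G)) ⁻¹' {g | ρ g w = w} := by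
      ext u
      rw [Set.mem_iInter]
      constructor
      · intro hu w
        have h2 : r u = 1 := hu
        change ρ u w = w
        rw [← res_apply ρ (fun u hu => hM.stb u (hle hu)) u w, ← hr, h2]
        rfl
      · intro hu
        change r u = 1
        ext w
        exact hu w
    rw [h1]
    exact isClosed_iInter fun w => (hρ.isClosed _ _).preimage continuous_subtype_val
  have hfiK : r.ker.FiniteIndex := by
    have h1 : Finite (Set.range r) := hrange
    have h2 : Finite (U' ⧸ r.ker) :=
      Finite.of_injective (fun q : U' ⧸ r.ker => (⟨Quotient.liftOn' q r (fun a b hab => by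
        have h3 : a⁻¹ * b ∈ r.ker := QuotientGroup.leftRel_apply.1 hab
        have h4 : r (a⁻¹ * b) = 1 := h3
        have h5 : b = a * (a⁻¹ * b) := by group
        rw [h5, map_mul, h4, mul_one]), by
          obtain ⟨u, rfl⟩ := QuotientGroup.mk_surjective q
          exact ⟨u, rfl⟩⟩ : Set.range r)) (by
        intro q q' hqq
        obtain ⟨u, rfl⟩ := QuotientGroup.mk_surjective q
        obtain ⟨u', rfl⟩ := QuotientGroup.mk_surjective q'
        have h3 : r u = r u' := congrArg Subtype.val hqq
        rw [QuotientGroup.eq]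
        change r (u⁻¹ * u') = 1
        rw [map_mul, ← h3, ← map_mul, inv_mul_cancel, map_one])
    exact Subgroup.finiteIndex_of_finite_quotient
  have hko : IsOpen (r.ker : Set U') := Subgroup.isOpen_of_isClosed_of_finiteIndex _ hker
  refine ⟨r.ker.map U'.subtype, ?_, ?_⟩
  · have h1 : ((r.ker.map U'.subtype : Subgroup G) : Set G) = (fun u : U' => (u : G)) '' (r.ker : Set U') := rfl
    rw [h1]
    exact hU'o.isOpenMap_subtype_val _ hko
  · rintro _ ⟨u, hu, rfl⟩ w hw
    have h2 : r u = 1 := hu
    have h3 := res_apply ρ (fun u hu => hM.stb u (hle hu)) u ⟨w, hw⟩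
    rw [← hr, h2] at h3
    exact h3.symm

/-- irreducible representations -/
theorem irr [IsProbabilityMeasure μ] (hρ : Cts ρ) [Nontrivial V]
    (hirr : ∀ T : Submodule K V, (∀ g, ∀ v ∈ T, ρ g v ∈ T) → T = ⊥ ∨ T = ⊤)
    {X : Set G} (hX : IsClosed X) {n : ℕ} (hn : finrank K V ≤ n)
    (hμX : (n : ℝ≥0∞) < n * μ X + 1)
    {M N : ℕ} (hM0 : 0 < M) (hgood : ∀ x ∈ X, (ρ x ^ M - 1) ^ N = 0) :
    ∃ U : Subgroup G, U.Normal ∧ IsOpen (U : Set G) ∧ ∀ u ∈ U, ρ u = 1 := by
  classical
  obtain ⟨U₀, W, hM⟩ := exists_minSub ρ hG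
  obtain ⟨hidx, hidx0, hHo⟩ := index_le hM
  have hfi : (HH hM).FiniteIndex := ⟨hidx0.ne'⟩
  have hμH := Subgroup.index_mul_measure (HH hM) hHo.measurableSet μ
  rw [measure_univ] at hμH
  have hpos : μ (X ∩ (HH hM : Set G)) ≠ 0 := by
    intro h0
    have h1 : μ X + μ (HH hM : Set G) ≤ 1 := by
      rw [← measure_union_add_inter X hHo.measurableSet, h0, add_zero]
      exact prob_le_one
    have h2 : (1 : ℝ≥0∞) ≤ n * μ (HH hM : Set G) := by
      rw [← hμH]
      gcongr
      exact hidx.trans hn
    have h3 : (n : ℝ≥0∞) * μ X + 1 ≤ n := by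
      calc (n : ℝ≥0∞) * μ X + 1 ≤ n * μ X + n * μ (HH hM : Set G) := by gcongr
        _ = n * (μ X + μ (HH hM : Set G)) := by rw [mul_add]
        _ ≤ n * 1 := by gcongr
        _ = n := mul_one _
    exact absurd hμX (not_lt.2 h3)
  obtain ⟨U, hUo, hU⟩ := trivial_on μ hρ hM hX hpos hM0 hgood
  obtain ⟨U', hn', ho, hle⟩ := hG U hUo
  refine ⟨U', hn', ho, ?_⟩
  let T : Submodule K V :=
    { carrier := {v | ∀ u ∈ U', ρ u v = v}
      add_mem' := fun {a b} ha hb u hu => by rw [map_add, ha u hu, hb u hu]
      zero_mem' := fun u _ => map_zero _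
      smul_mem' := fun k a ha u hu => by rw [map_smul, ha u hu] }
  rcases hirr T (by
    intro g v hv u hu
    have h1 : g⁻¹ * u * g ∈ U' := by
      have := hn'.conj_mem u hu g⁻¹
      rwa [inv_inv] at this
    have h2 := hv _ h1
    have h3 : u * g = g * (g⁻¹ * u * g) := by group
    rw [← act_mul, h3, act_mul, h2]) with h1 | h1
  · exfalso
    apply hM.ne_bot
    rw [eq_bot_iff, ← h1]
    exact fun w hw u hu => hU u (hle hu) w hw
  · intro u hu
    ext v
    have h2 : v ∈ T := by rw [h1]; trivial
    exact h2 u hu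

end

section all

/-- the representation on a stable subspace -/
def sub {V : Type} [AddCommGroup V] [Module K V] (ρ : G →* End K V) {T : Submodule K V}
    (h : ∀ g, ∀ v ∈ T, ρ g v ∈ T) : G →* End K T where
  toFun g := (ρ g).restrict (h g)
  map_one' := by
    ext w
    simp [LinearMap.restrict_apply]
  map_mul' a b := by
    ext w
    simp [LinearMap.restrict_apply]

/-- the representation on the quotient -/
def quo {V : Type} [AddCommGroup V] [Module K V] (ρ : G →* End K V) {T : Submodule K V}
    (h : ∀ g, ∀ v ∈ T, ρ g v ∈ T) : G →* End K (V ⧸ T) where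
  toFun g := T.mapQ T (ρ g) (h g)
  map_one' := by
    ext w
    simp
  map_mul' a b := by
    ext w
    simp

variable (μ : Measure G) [μ.IsMulLeftInvariant] [IsProbabilityMeasure μ] [μ.OuterRegular]

/-- **traces are locally constant** -/
theorem main {X : Set G} (hX : IsClosed X) {n : ℕ} (hμX : (n : ℝ≥0∞) < n * μ X + 1)
    {M N : ℕ} (hM0 : 0 < M) : ∀ (d : ℕ) (V : Type) [AddCommGroup V] [Module K V]
      [FiniteDimensional K V] (ρ : G →* End K V), finrank K V = d → finrank K V ≤ n → Cts ρ →
      (∀ x ∈ X, (ρ x ^ M - 1) ^ N = 0) →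
    ∃ U : Subgroup G, U.Normal ∧ IsOpen (U : Set G) ∧ ∀ u ∈ U, ∀ g,
      LinearMap.trace K V (ρ (u * g)) = LinearMap.trace K V (ρ g) := by
  classical
  intro d
  induction d using Nat.strong_induction_on with
  | _ d ih =>
    intro V _ _ _ ρ hd hn hρ hgood
    rcases subsingleton_or_nontrivial V with hV | hV
    · refine ⟨⊤, inferInstance, isOpen_univ, fun u _ g => ?_⟩
      have h1 : ρ (u * g) = ρ g := by
        ext v
        exact Subsingleton.elim _ _
      rw [h1]
    · -- a minimal stable subspace
      have hex : ∃ d : ℕ, ∃ T : Submodule K V, (∀ g, ∀ v ∈ T, ρ g v ∈ T) ∧ T ≠ ⊥ ∧ finrank K T = d :=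
        ⟨_, ⊤, fun _ _ _ => trivial, top_ne_bot, rfl⟩
      obtain ⟨T, hT, hT0, hTd⟩ := Nat.find_spec hex
      have hTmin : ∀ T' : Submodule K V, (∀ g, ∀ v ∈ T', ρ g v ∈ T') → T' ≤ T → T' = ⊥ ∨ T' = T := by
        intro T' hT' hle
        by_cases h0 : T' = ⊥
        · exact Or.inl h0
        · right
          have h1 : Nat.find hex ≤ finrank K T' := Nat.find_min' hex ⟨T', hT', h0, rfl⟩
          rw [← hTd] at h1
          exact Submodule.eq_of_le_of_finrank_le hle h1
      have hpow : ∀ (g : G) (k : ℕ) (w : T), ((sub ρ hT g ^ k) w : V) = (ρ g ^ k) w := by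
        intro g k
        induction k with
        | zero => intro w; simp
        | succ k ih => intro w; rw [pow_succ', Module.End.mul_apply, pow_succ', Module.End.mul_apply, ← ih]; rfl
      have hpow2 : ∀ (g : G) (M k : ℕ) (w : T), (((sub ρ hT g ^ M - 1) ^ k) w : V) =
          ((ρ g ^ M - 1) ^ k) w := by
        intro g M k
        induction k with
        | zero => intro w; simp
        | succ k ih =>
          intro w
          rw [pow_succ', Module.End.mul_apply, pow_succ', Module.End.mul_apply, ← ih,
            LinearMap.sub_apply, LinearMap.sub_apply, Submodule.coe_sub, hpow]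
          rfl
      have hqpow : ∀ (g : G) (k : ℕ) (v : V), (quo ρ hT g ^ k) (T.mkQ v) = T.mkQ ((ρ g ^ k) v) := by
        intro g k
        induction k with
        | zero => intro w; simp
        | succ k ih => intro w; rw [pow_succ', Module.End.mul_apply, pow_succ', Module.End.mul_apply, ih]; rfl
      have hqpow2 : ∀ (g : G) (M k : ℕ) (v : V), ((quo ρ hT g ^ M - 1) ^ k) (T.mkQ v) =
          T.mkQ (((ρ g ^ M - 1) ^ k) v) := by
        intro g M k
        induction k with
        | zero => intro w; simp
        | succ k ih =>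
          intro w
          rw [pow_succ', Module.End.mul_apply, pow_succ', Module.End.mul_apply, ih,
            LinearMap.sub_apply, LinearMap.sub_apply, map_sub, hqpow]
          rfl
      have hnt : Nontrivial T := Submodule.nontrivial_iff_ne_bot.2 hT0
      -- the subspace
      obtain ⟨U₁, hU₁n, hU₁o, hU₁⟩ := irr (V := T) (ρ := sub ρ hT) μ (by
          intro φ v
          obtain ⟨ψ, hψ⟩ := LinearMap.exists_extend φ
          have h1 : (fun g => φ (sub ρ hT g v)) = fun g => ψ (ρ g v) := by
            funext g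
            rw [← hψ]
            rfl
          rw [h1]
          exact hρ ψ v) (by
          intro S hS
          rcases hTmin (S.map T.subtype) (by
            rintro g _ ⟨w, hw, rfl⟩
            exact ⟨sub ρ hT g w, hS g w hw, rfl⟩) (by rintro _ ⟨w, -, rfl⟩; exact w.2) with h1 | h1
          · left
            rw [eq_bot_iff]
            intro w hw
            have h2 : (w : V) ∈ S.map T.subtype := ⟨w, hw, rfl⟩
            rw [h1] at h2
            exact Subtype.ext ((Submodule.mem_bot K).1 h2)
          · right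
            rw [eq_top_iff]
            rintro w -
            have h2 : (w : V) ∈ S.map T.subtype := by rw [h1]; exact w.2
            obtain ⟨w', hw', hww⟩ := h2
            have h3 : w' = w := Subtype.ext hww
            rw [← h3]
            exact hw') hX ((Submodule.finrank_le T).trans hn) hμX hM0 (by
          intro x hx
          ext w
          rw [hpow2, hgood x hx]
          rfl)
      -- the quotient
      have hlt : finrank K (V ⧸ T) < d := by
        have h1 := Submodule.finrank_quotient_add_finrank T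
        have h2 : 0 < finrank K T := Module.finrank_pos
        omega
      obtain ⟨U₂, hU₂n, hU₂o, hU₂⟩ := ih _ hlt (V ⧸ T) (quo ρ hT) rfl (by omega) (by
          intro φ v
          obtain ⟨v, rfl⟩ := T.mkQ_surjective v
          exact hρ (φ ∘ₗ T.mkQ) v) (by
          intro x hx
          ext v
          change ((quo ρ hT x ^ M - 1) ^ N) (T.mkQ v) = 0
          rw [hqpow2, hgood x hx]
          simp)
      refine ⟨U₁ ⊓ U₂, inferInstance, ?_, fun u hu g => ?_⟩
      · rw [Subgroup.coe_inf]
        exact hU₁o.inter hU₂o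
      · rw [trace_add T (ρ (u * g)) (hT _), trace_add T (ρ g) (hT _)]
        have h1 : sub ρ hT (u * g) = sub ρ hT g := by rw [map_mul, hU₁ u hu.1, one_mul]
        have h2 : (ρ (u * g)).restrict (hT (u * g)) = (ρ g).restrict (hT g) := h1
        have h3 := hU₂ u hu.2 g
        exact congrArg₂ (· + ·) (congrArg _ h2) h3

end all

end Pool.Agent.U849.SS
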