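import Mathlib

/-!
# Irreducible families with finitely many traces
-/

set_option autoImplicit false
set_option linter.unusedSectionVars false

namespace Pool.Agent.U849.SS

open Module

variable {K M : Type} [Field K] [IsAlgClosed K] [AddCommGroup M] [Module K M] [FiniteDimensional K M]

/-- Burnside's theorem -/
theorem bt_end [Nontrivial M] (B : Subalgebra K (Module.End K M))
    (hB : ∀ T : Submodule K M, (∀ x ∈ B, T.map x ≤ T) → T = ⊥ ∨ T = ⊤) : B = ⊤ := by
  have hsimple : IsSimpleModule B M := by
    rw [isSimpleModule_iff]
    refine { exists_pair_ne := ⟨⊥, ⊤, bot_ne_top⟩, eq_bot_or_eq_top := ?_ }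
    intro N
    have h := hB (N.restrictScalars K) (by
      rintro x hx y ⟨z, hz, rfl⟩
      exact N.smul_mem (⟨x, hx⟩ : B) hz)
    rcases h with h | h
    · left
      rw [Submodule.restrictScalars_eq_bot_iff] at h
      exact h
    · right
      rw [Submodule.restrictScalars_eq_top_iff] at h
      exact h
  have schur : ∀ f : Module.End B M, ∃ c : K, ∀ x : M, f x = c • x := by
    intro f
    obtain ⟨c, hc⟩ := Module.End.exists_eigenvalue (f.restrictScalars K : Module.End K M)
    refine ⟨c, ?_⟩
    obtain ⟨v, hv⟩ := hc.exists_hasEigenvector
    have hv1 : f v = c • v := hv.apply_eq_smul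
    have hv0 : v ≠ 0 := hv.2
    let X : Submodule B M :=
      { carrier := {x | f x = c • x}
        add_mem' := by
          intro a b ha hb
          simp only [Set.mem_ofPred_eq] at ha hb ⊢
          rw [map_add, ha, hb, smul_add]
        zero_mem' := by simp
        smul_mem' := by
          intro r x hx
          simp only [Set.mem_ofPred_eq] at hx ⊢
          rw [map_smul, hx]
          exact (smul_comm c r x).symm }
    have hX : X = ⊤ := by
      rcases eq_bot_or_eq_top X with h | h
      · exfalso
        have : v ∈ X := hv1
        rw [h] at this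
        exact hv0 (by simpa using this)
      · exact h
    intro x
    have : x ∈ X := by rw [hX]; trivial
    exact this
  rw [eq_top_iff]
  intro g _
  let F : Module.End (Module.End B M) M :=
    { toFun := g
      map_add' := g.map_add
      map_smul' := by
        intro f x
        obtain ⟨c, hc⟩ := schur f
        simp only [Module.End.smul_def, RingHom.id_apply]
        rw [hc, hc, map_smul] }
  let b := Module.finBasis K M
  classical
  obtain ⟨r, hr⟩ := jacobson_density F (Finset.univ.image b)
  have : g = (r : Module.End K M) := by
    apply b.ext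
    intro i
    exact hr (b i) (Finset.mem_image_of_mem _ (Finset.mem_univ i))
  rw [this]
  exact r.2

theorem eq_zero_of_trace {c : End K M} (h : ∀ Z : End K M, LinearMap.trace K M (Z * c) = 0) :
    c = 0 := by
  ext v
  rw [LinearMap.zero_apply]
  rw [← Module.forall_dual_apply_eq_zero_iff K]
  intro φ
  have h1 := h (φ.smulRight v)
  rw [LinearMap.trace_mul_comm] at h1
  have h2 : c * φ.smulRight v = φ.smulRight (c v) := by
    ext w
    simp
  rw [h2, LinearMap.trace_smulRight] at h1
  exact h1

/-- an irreducible group of operators with finitely many traces is finite -/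
theorem finite_image [Nontrivial M] {U : Type} [Group U] (r : U →* End K M)
    (hirr : ∀ T : Submodule K M, (∀ u, ∀ w ∈ T, r u w ∈ T) → T = ⊥ ∨ T = ⊤)
    (b b' : End K M) (hb : b * b' = 1) {S : Set K} (hS : S.Finite)
    (h : ∀ u, LinearMap.trace K M (b * r u) ∈ S) : (Set.range r).Finite := by
  classical
  have hspan : Submodule.span K (Set.range r) = ⊤ := by
    have h1 : Algebra.adjoin K (Set.range r) = ⊤ := by
      apply bt_end
      intro T hT
      refine hirr T fun u w hw => ?_
      exact hT (r u) (Algebra.subset_adjoin ⟨u, rfl⟩) ⟨w, hw, rfl⟩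
    have h2 : Submonoid.closure (Set.range r) = MonoidHom.mrange r := by
      rw [← MonoidHom.coe_mrange, Submonoid.closure_eq]
    have h3 := congrArg Subalgebra.toSubmodule h1
    rw [Algebra.adjoin_eq_span, h2, MonoidHom.coe_mrange] at h3
    rw [h3]
    rfl
  obtain ⟨κ, a, -, hspan', hli⟩ := exists_linearIndependent' K r
  have hκ : Finite κ := hli.finite
  have hft : Fintype κ := Fintype.ofFinite κ
  rw [hspan] at hspan'
  let Θ : End K M → κ → K := fun c i => LinearMap.trace K M (b * r (a i) * c)
  have hfin : (Set.univ.pi fun _ : κ => S).Finite := Set.Finite.pi fun _ => hS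
  refine Set.Finite.of_injOn (f := Θ) (t := Set.univ.pi fun _ : κ => S) ?_ ?_ hfin
  · rintro _ ⟨u, rfl⟩ i -
    change LinearMap.trace K M (b * r (a i) * r u) ∈ S
    rw [mul_assoc, ← map_mul]
    exact h _
  · rintro c - c' - hcc
    rw [← sub_eq_zero]
    apply eq_zero_of_trace
    intro Z
    have hZ : b' * Z ∈ Submodule.span K (Set.range (r ∘ a)) := by
      rw [hspan']
      exact Submodule.mem_top
    have key : ∀ Y ∈ Submodule.span K (Set.range (r ∘ a)),
        LinearMap.trace K M (b * Y * (c - c')) = 0 := by
      intro Y hY
      induction hY using Submodule.span_induction with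
      | mem x hx =>
        obtain ⟨i, rfl⟩ := hx
        have h1 := congrFun hcc i
        change LinearMap.trace K M (b * r (a i) * c) = LinearMap.trace K M (b * r (a i) * c') at h1
        rw [mul_sub, map_sub]
        exact sub_eq_zero.2 h1
      | zero => simp
      | add x y _ _ hx hy => rw [mul_add, add_mul, map_add, hx, hy, add_zero]
      | smul k x _ hx => rw [mul_smul_comm, smul_mul_assoc, map_smul, hx, smul_zero]
    have h1 := key _ hZ
    rwa [← mul_assoc, hb, one_mul] at h1

end Pool.Agent.U849.SS
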