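import Mathlib

/-!
# Minimal subspaces stable under open subgroups, and their commensurator
-/

set_option autoImplicit false
set_option linter.unusedSectionVars false

namespace Pool.Agent.U849.SS

open Module

variable {K : Type} [Field K] {V : Type} [AddCommGroup V] [Module K V]
  {G : Type} [Group G] [TopologicalSpace G] [IsTopologicalGroup G]

/-- the subspace `W` is stable under `U` -/
def Stb (ρ : G →* End K V) (U : Subgroup G) (W : Submodule K V) : Prop :=
  ∀ u ∈ U, ∀ w ∈ W, ρ u w ∈ W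

/-- `W` is stable under the open normal subgroup `U` and has no proper nonzero subspace stable under an open subgroup -/
structure MinSub (ρ : G →* End K V) (U : Subgroup G) (W : Submodule K V) : Prop where
  isOpen : IsOpen (U : Set G)
  normal : U.Normal
  stb : Stb ρ U W
  ne_bot : W ≠ ⊥
  min : ∀ (U' : Subgroup G) (W' : Submodule K V), IsOpen (U' : Set G) → Stb ρ U' W' → W' ≤ W → W' = ⊥ ∨ W' = W

theorem act_mul (ρ : G →* End K V) (g h : G) (v : V) : ρ (g * h) v = ρ g (ρ h v) := by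
  rw [map_mul]
  rfl

theorem act_one (ρ : G →* End K V) (v : V) : ρ 1 v = v := by
  rw [map_one]
  rfl

theorem act_inv (ρ : G →* End K V) (g : G) (v : V) : ρ g⁻¹ (ρ g v) = v := by
  rw [← act_mul, inv_mul_cancel, act_one]

theorem act_inv' (ρ : G →* End K V) (g : G) (v : V) : ρ g (ρ g⁻¹ v) = v := by
  rw [← act_mul, mul_inv_cancel, act_one]

theorem act_inj (ρ : G →* End K V) (g : G) : Function.Injective (ρ g) := fun x y h => by
  rw [← act_inv ρ g x, h, act_inv]

/-- existence -/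
theorem exists_minSub [FiniteDimensional K V] [Nontrivial V] (ρ : G →* End K V)
    (hG : ∀ U : Subgroup G, IsOpen (U : Set G) → ∃ U' : Subgroup G, U'.Normal ∧ IsOpen (U' : Set G) ∧ U' ≤ U) :
    ∃ (U : Subgroup G) (W : Submodule K V), MinSub ρ U W := by
  classical
  have hex : ∃ d : ℕ, ∃ (U : Subgroup G) (W : Submodule K V), IsOpen (U : Set G) ∧ Stb ρ U W ∧ W ≠ ⊥ ∧
      finrank K W = d := ⟨_, ⊤, ⊤, isOpen_univ, fun _ _ _ _ => Submodule.mem_top, top_ne_bot, rfl⟩
  obtain ⟨U, W, hU, hW, hne, hd⟩ := Nat.find_spec hex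
  obtain ⟨U', hn, ho, hle⟩ := hG U hU
  refine ⟨U', W, ho, hn, fun u hu => hW u (hle hu), hne, fun U₁ W₁ hU₁ hW₁ hle₁ => ?_⟩
  by_cases h0 : W₁ = ⊥
  · exact Or.inl h0
  · right
    have h1 : Nat.find hex ≤ finrank K W₁ := Nat.find_min' hex ⟨U₁, W₁, hU₁, hW₁, h0, rfl⟩
    rw [← hd] at h1
    exact Submodule.eq_of_le_of_finrank_le hle₁ h1

/-- the commensurator of `W`: those `h` for which `W` and `h W` are isomorphic for an open subgroup -/
def InH (ρ : G →* End K V) (W : Submodule K V) (h : G) : Prop :=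
  ∃ (U : Subgroup G) (A : End K V), IsOpen (U : Set G) ∧ (∀ w ∈ W, A w ∈ W) ∧ (∃ w ∈ W, A w ≠ 0) ∧
    ∀ u ∈ U, ∀ w ∈ W, ρ u w ∈ W ∧ A (ρ u w) = ρ (h * u * h⁻¹) (A w)

variable {ρ : G →* End K V} {U₀ : Subgroup G} {W : Submodule K V}

/-- a nonzero equivariant map is injective on `W` -/
theorem inj_of (hM : MinSub ρ U₀ W) {h : G} {U : Subgroup G} {A : End K V} (hU : IsOpen (U : Set G))
    (hne : ∃ w ∈ W, A w ≠ 0)
    (hA : ∀ u ∈ U, ∀ w ∈ W, ρ u w ∈ W ∧ A (ρ u w) = ρ (h * u * h⁻¹) (A w)) :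
    ∀ w ∈ W, A w = 0 → w = 0 := by
  intro w hw h0
  have hst : Stb ρ U (W ⊓ LinearMap.ker A) := by
    intro u hu x hx
    have hx2 : A x = 0 := LinearMap.mem_ker.1 hx.2
    refine ⟨(hA u hu x hx.1).1, ?_⟩
    have h1 : A (ρ u x) = 0 := by rw [(hA u hu x hx.1).2, hx2, map_zero]
    exact LinearMap.mem_ker.2 h1
  rcases hM.min U _ hU hst inf_le_left with h1 | h1
  · have h2 : w ∈ W ⊓ LinearMap.ker A := ⟨hw, h0⟩
    rw [h1] at h2
    exact (Submodule.mem_bot K).1 h2
  · obtain ⟨x, hx, hx0⟩ := hne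
    have h2 : x ∈ W ⊓ LinearMap.ker A := by
      rw [h1]
      exact hx
    exact absurd h2.2 hx0

/-- and surjective -/
theorem surj_of [FiniteDimensional K V] (hM : MinSub ρ U₀ W) {h : G} {U : Subgroup G} {A : End K V}
    (hU : IsOpen (U : Set G)) (hW : ∀ w ∈ W, A w ∈ W) (hne : ∃ w ∈ W, A w ≠ 0)
    (hA : ∀ u ∈ U, ∀ w ∈ W, ρ u w ∈ W ∧ A (ρ u w) = ρ (h * u * h⁻¹) (A w)) :
    ∀ w ∈ W, ∃ w' ∈ W, A w' = w := by
  have hinj : Function.Injective (A.restrict hW) := by
    rw [← LinearMap.ker_eq_bot, LinearMap.ker_eq_bot']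
    intro x hx
    have h1 : A x = 0 := congrArg Subtype.val hx
    exact Subtype.ext (inj_of hM hU hne hA x x.2 h1)
  have hsurj := (LinearMap.injective_iff_surjective (f := A.restrict hW)).1 hinj
  intro w hw
  obtain ⟨x, hx⟩ := hsurj ⟨w, hw⟩
  exact ⟨x, x.2, congrArg Subtype.val hx⟩

theorem inH_of_mem (hM : MinSub ρ U₀ W) {h : G} (hh : h ∈ U₀) : InH ρ W h := by
  refine ⟨U₀, ρ h, hM.isOpen, fun w hw => hM.stb h hh w hw, ?_, fun u hu w hw => ⟨hM.stb u hu w hw, ?_⟩⟩
  · obtain ⟨w, hw, hw0⟩ := (Submodule.ne_bot_iff W).1 hM.ne_bot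
    exact ⟨w, hw, fun h0 => hw0 (act_inj ρ h (by rw [h0, map_zero]))⟩
  · rw [← act_mul, ← act_mul]
    congr 1
    group

theorem inH_mul (hM : MinSub ρ U₀ W) {h h' : G} (hh : InH ρ W h) (hh' : InH ρ W h') : InH ρ W (h * h') := by
  obtain ⟨U, A, hU, hAW, hA0, hA⟩ := hh
  obtain ⟨U', A', hU', hAW', hA0', hA'⟩ := hh'
  have hcont : Continuous fun u : G => h' * u * h'⁻¹ := by fun_prop
  refine ⟨U' ⊓ U.comap (MulAut.conj h').toMonoidHom, A ∘ₗ A', ?_, fun w hw => hAW _ (hAW' w hw), ?_, ?_⟩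
  · rw [Subgroup.coe_inf]
    exact hU'.inter (hU.preimage hcont)
  · obtain ⟨w, hw, hw0⟩ := hA0'
    exact ⟨w, hw, fun h0 => hw0 (inj_of hM hU hA0 hA _ (hAW' w hw) h0)⟩
  · intro u hu w hw
    refine ⟨(hA' u hu.1 w hw).1, ?_⟩
    rw [LinearMap.comp_apply, (hA' u hu.1 w hw).2, LinearMap.comp_apply,
      (hA (h' * u * h'⁻¹) hu.2 (A' w) (hAW' w hw)).2]
    congr 2
    group

theorem inH_inv [FiniteDimensional K V] (hM : MinSub ρ U₀ W) {h : G} (hh : InH ρ W h) : InH ρ W h⁻¹ := by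
  classical
  obtain ⟨U, A, hU, hAW, hA0, hA⟩ := hh
  have hinj := inj_of hM hU hA0 hA
  have hsurj := surj_of hM hU hAW hA0 hA
  have hbij : Function.Bijective (A.restrict hAW) := by
    constructor
    · rw [← LinearMap.ker_eq_bot, LinearMap.ker_eq_bot']
      intro x hx
      exact Subtype.ext (hinj x x.2 (congrArg Subtype.val hx))
    · rintro ⟨w, hw⟩
      obtain ⟨x, hx, hxw⟩ := hsurj w hw
      exact ⟨⟨x, hx⟩, Subtype.ext hxw⟩
  set e := LinearEquiv.ofBijective (A.restrict hAW) hbij with he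
  obtain ⟨B, hB⟩ := LinearMap.exists_extend (W.subtype ∘ₗ (e.symm : W →ₗ[K] W))
  have hB1 : ∀ w : W, B w = e.symm w := fun w => by
    have := congrArg (fun f => f w) hB
    simpa using this
  have hAB : ∀ w : W, A (e.symm w : V) = w := by
    intro w
    have := e.apply_symm_apply w
    exact congrArg Subtype.val this
  have hcont : Continuous fun u : G => h⁻¹ * u * h := by fun_prop
  refine ⟨U₀ ⊓ U.comap (MulAut.conj h⁻¹).toMonoidHom, B, ?_, ?_, ?_, ?_⟩
  · rw [Subgroup.coe_inf]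
    refine hM.isOpen.inter ?_
    refine hU.preimage (f := fun u : G => (MulAut.conj h⁻¹).toMonoidHom u) ?_
    simp only [MulEquiv.toMonoidHom_eq_coe, MonoidHom.coe_coe, MulAut.conj_apply, inv_inv]
    exact hcont
  · intro w hw
    rw [hB1 ⟨w, hw⟩]
    exact (e.symm ⟨w, hw⟩).2
  · obtain ⟨w, hw, hw0⟩ := (Submodule.ne_bot_iff W).1 hM.ne_bot
    refine ⟨w, hw, ?_⟩
    rw [hB1 ⟨w, hw⟩]
    intro h0
    apply hw0
    have h1 := hAB ⟨w, hw⟩
    rw [h0, map_zero] at h1
    exact h1.symm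
  · intro u hu w hw
    have huW := hM.stb u hu.1 w hw
    refine ⟨huW, ?_⟩
    have hu2 : h⁻¹ * u * h ∈ U := by simpa using hu.2
    rw [hB1 ⟨w, hw⟩, hB1 ⟨_, huW⟩]
    -- both sides have the same image under `A`
    have h1 := hA (h⁻¹ * u * h) hu2 _ (e.symm ⟨w, hw⟩).2
    rw [hAB] at h1
    have h2 : h * (h⁻¹ * u * h) * h⁻¹ = u := by group
    rw [h2] at h1
    have h3 := hAB ⟨_, huW⟩
    have h4 : A ((e.symm ⟨_, huW⟩ : V) - ρ (h⁻¹ * u * h) (e.symm ⟨w, hw⟩ : V)) = 0 := by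
      rw [map_sub, h3, h1.2, sub_self]
    have h5 := hinj _ (W.sub_mem (e.symm ⟨_, huW⟩).2 h1.1) h4
    have h6 : h⁻¹ * u * h⁻¹⁻¹ = h⁻¹ * u * h := by rw [inv_inv]
    rw [h6]
    exact sub_eq_zero.1 h5

/-- the commensurator as a subgroup -/
def HH [FiniteDimensional K V] (hM : MinSub ρ U₀ W) : Subgroup G where
  carrier := {h | InH ρ W h}
  mul_mem' := fun ha hb => inH_mul hM ha hb
  one_mem' := inH_of_mem hM U₀.one_mem
  inv_mem' := fun ha => inH_inv hM ha

theorem le_HH [FiniteDimensional K V] (hM : MinSub ρ U₀ W) : U₀ ≤ HH hM := fun _ hh => inH_of_mem hM hh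

/-- translates which are pairwise not isomorphic are independent -/
theorem indep [FiniteDimensional K V] (hM : MinSub ρ U₀ W) : ∀ (k : ℕ) (s : Finset G), s.card = k →
    (∀ g ∈ s, ∀ g' ∈ s, g ≠ g' → ¬ InH ρ W (g⁻¹ * g')) → ∀ x : G → V, (∀ g ∈ s, ρ g⁻¹ (x g) ∈ W) →
      ∑ g ∈ s, x g = 0 → ∀ g ∈ s, x g = 0 := by
  classical
  intro k
  induction k with
  | zero =>
    intro s hs _ x _ _ g hg
    rw [Finset.card_eq_zero.1 hs] at hg
    exact absurd hg (Finset.notMem_empty g)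
  | succ k ih =>
    intro s hs hpair x hx hsum g₀ hg₀
    by_contra hne
    -- all coordinates of a relation vanish if one does
    have key : ∀ y : G → V, (∀ g ∈ s, ρ g⁻¹ (y g) ∈ W) → ∑ g ∈ s, y g = 0 → ∀ g ∈ s, y g = 0 →
        ∀ g' ∈ s, y g' = 0 := by
      intro y hy hys g hg hg0 g' hg'
      by_cases hgg : g' = g
      · rw [hgg, hg0]
      · have h1 : ∑ g ∈ s.erase g, y g = 0 := by
          rw [← hys, ← Finset.add_sum_erase s y hg, hg0, zero_add]
        refine ih (s.erase g) ?_ (fun a ha b hb => hpair a (Finset.mem_of_mem_erase ha) b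
          (Finset.mem_of_mem_erase hb)) y (fun a ha => hy a (Finset.mem_of_mem_erase ha)) h1 g'
          (Finset.mem_erase.2 ⟨hgg, hg'⟩)
        rw [Finset.card_erase_of_mem hg, hs, Nat.add_sub_cancel]
    obtain ⟨g₁, hg₁, hg₁₀⟩ : ∃ g₁ ∈ s, g₁ ≠ g₀ := by
      by_contra hcon
      push Not at hcon
      have h1 : s = {g₀} := by
        ext g
        rw [Finset.mem_singleton]
        exact ⟨fun hg => hcon g hg, fun hg => hg ▸ hg₀⟩
      rw [h1, Finset.sum_singleton] at hsum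
      exact hne hsum
    apply hpair g₁ hg₁ g₀ hg₀ hg₁₀
    -- the space of relations
    let X : Submodule K (G → V) :=
      { carrier := {y | (∀ g ∈ s, ρ g⁻¹ (y g) ∈ W) ∧ ∑ g ∈ s, y g = 0 ∧ ∀ g ∉ s, y g = 0}
        add_mem' := by
          rintro a b ⟨ha, ha', ha''⟩ ⟨hb, hb', hb''⟩
          refine ⟨fun g hg => ?_, ?_, fun g hg => ?_⟩
          · rw [Pi.add_apply, map_add]
            exact W.add_mem (ha g hg) (hb g hg)
          · simp only [Pi.add_apply, Finset.sum_add_distrib, ha', hb', add_zero]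
          · rw [Pi.add_apply, ha'' g hg, hb'' g hg, add_zero]
        zero_mem' := ⟨fun g _ => by simp, by simp, fun g _ => rfl⟩
        smul_mem' := by
          rintro c a ⟨ha, ha', ha''⟩
          refine ⟨fun g hg => ?_, ?_, fun g hg => ?_⟩
          · rw [Pi.smul_apply, map_smul]
            exact W.smul_mem c (ha g hg)
          · simp only [Pi.smul_apply, ← Finset.smul_sum, ha', smul_zero]
          · rw [Pi.smul_apply, ha'' g hg, smul_zero] }
    have hXz : ∀ y ∈ X, ∀ g ∈ s, y g = 0 → y = 0 := by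
      rintro y ⟨hy, hy', hy''⟩ g hg hg0
      funext g'
      by_cases hg' : g' ∈ s
      · exact key y hy hy' g hg hg0 g' hg'
      · exact hy'' g' hg'
    let p : ∀ g ∈ s, X →ₗ[K] W := fun g hg =>
      { toFun := fun y => ⟨ρ g⁻¹ (y.1 g), y.2.1 g hg⟩
        map_add' := fun a b => Subtype.ext (by simp)
        map_smul' := fun c a => Subtype.ext (by simp) }
    have hpinj : ∀ g (hg : g ∈ s), Function.Injective (p g hg) := by
      intro g hg
      rw [← LinearMap.ker_eq_bot, LinearMap.ker_eq_bot']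
      intro y hy
      have h1 : ρ g⁻¹ (y.1 g) = 0 := congrArg Subtype.val hy
      have h2 : y.1 g = 0 := act_inj ρ g⁻¹ (by rw [h1, map_zero])
      exact Subtype.ext (hXz y.1 y.2 g hg h2)
    -- `U₀` acts on the relations
    have hact : ∀ u ∈ U₀, ∀ y ∈ X, (fun g => ρ u (y g)) ∈ X := by
      rintro u hu y ⟨hy, hy', hy''⟩
      refine ⟨fun g hg => ?_, ?_, fun g hg => ?_⟩
      · have h1 : ρ g⁻¹ (ρ u (y g)) = ρ (g⁻¹ * u * g) (ρ g⁻¹ (y g)) := by
          rw [← act_mul, ← act_mul]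
          congr 1
          group
        change ρ g⁻¹ (ρ u (y g)) ∈ W
        rw [h1]
        refine hM.stb _ ?_ _ (hy g hg)
        have := hM.normal.conj_mem u hu g⁻¹
        rwa [inv_inv] at this
      · change ∑ g ∈ s, ρ u (y g) = 0
        rw [← map_sum, hy', map_zero]
      · change ρ u (y g) = 0
        rw [hy'' g hg, map_zero]
    have hrange : ∀ g (hg : g ∈ s), LinearMap.range (p g hg) = ⊤ := by
      intro g hg
      have hst : Stb ρ U₀ ((LinearMap.range (p g hg)).map W.subtype) := by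
        rintro u hu _ ⟨_, ⟨y, rfl⟩, rfl⟩
        have hu' : g * u * g⁻¹ ∈ U₀ := hM.normal.conj_mem u hu g
        refine ⟨p g hg ⟨_, hact _ hu' y.1 y.2⟩, ⟨_, rfl⟩, ?_⟩
        change ρ g⁻¹ (ρ (g * u * g⁻¹) (y.1 g)) = ρ u (ρ g⁻¹ (y.1 g))
        rw [← act_mul, ← act_mul]
        congr 1
        group
      have hle : (LinearMap.range (p g hg)).map W.subtype ≤ W := by
        rintro _ ⟨w, -, rfl⟩
        exact w.2
      rcases hM.min U₀ _ hM.isOpen hst hle with h1 | h1
      · exfalso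
        have hx'X : (fun g => if g ∈ s then x g else 0) ∈ X := by
          refine ⟨fun g hg => ?_, ?_, fun g hg => ?_⟩
          · simp only [hg, if_true]
            exact hx g hg
          · have h4 : ∑ g ∈ s, (if g ∈ s then x g else 0) = ∑ g ∈ s, x g :=
              Finset.sum_congr rfl fun g hg => by rw [if_pos hg]
            exact h4.trans hsum
          · simp only [hg, if_false]
        have h2 : (⟨_, hx'X⟩ : X) = 0 := by
          apply hpinj g hg
          rw [map_zero]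
          have h3 : (W.subtype (p g hg ⟨_, hx'X⟩)) ∈
                (LinearMap.range (p g hg)).map W.subtype := ⟨_, ⟨_, rfl⟩, rfl⟩
          rw [h1] at h3
          exact Subtype.ext ((Submodule.mem_bot K).1 h3)
        have h3 := congrFun (congrArg Subtype.val h2) g₀
        simp only [hg₀, if_true] at h3
        exact hne h3
      · rw [eq_top_iff]
        rintro ⟨w, hw⟩ -
        rw [← h1] at hw
        obtain ⟨_, ⟨y, rfl⟩, hy⟩ := hw
        exact ⟨y, Subtype.ext hy⟩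
    -- the isomorphism
    let e₀ : X ≃ₗ[K] W := LinearEquiv.ofBijective (p g₀ hg₀) ⟨hpinj g₀ hg₀,
      LinearMap.range_eq_top.1 (hrange g₀ hg₀)⟩
    obtain ⟨A, hA⟩ := LinearMap.exists_extend (W.subtype ∘ₗ (p g₁ hg₁) ∘ₗ (e₀.symm : W →ₗ[K] X))
    have hA1 : ∀ y : X, A (p g₀ hg₀ y) = p g₁ hg₁ y := by
      intro y
      have h1 := congrArg (fun f => f (p g₀ hg₀ y)) hA
      simp only [LinearMap.comp_apply, Submodule.subtype_apply, LinearEquiv.coe_coe] at h1
      have h2 : e₀.symm (p g₀ hg₀ y) = y := e₀.symm_apply_apply y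
      rw [h2] at h1
      exact h1
    have hsurj : ∀ w ∈ W, ∃ y : X, (p g₀ hg₀ y : V) = w := by
      intro w hw
      obtain ⟨y, hy⟩ := LinearMap.range_eq_top.1 (hrange g₀ hg₀) ⟨w, hw⟩
      exact ⟨y, congrArg Subtype.val hy⟩
    refine ⟨U₀, A, hM.isOpen, ?_, ?_, ?_⟩
    · intro w hw
      obtain ⟨y, rfl⟩ := hsurj w hw
      rw [hA1]
      exact (p g₁ hg₁ y).2
    · obtain ⟨w, hw, hw0⟩ := (Submodule.ne_bot_iff W).1 hM.ne_bot
      obtain ⟨y, rfl⟩ := hsurj w hw
      refine ⟨_, hw, ?_⟩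
      rw [hA1]
      intro h0
      have h1 : y = 0 := hpinj g₁ hg₁ (by rw [map_zero]; exact Subtype.ext h0)
      rw [h1, map_zero] at hw0
      exact hw0 rfl
    · intro u hu w hw
      refine ⟨hM.stb u hu w hw, ?_⟩
      obtain ⟨y, rfl⟩ := hsurj w hw
      have hu' : g₀ * u * g₀⁻¹ ∈ U₀ := hM.normal.conj_mem u hu g₀
      have h1 : ρ u (p g₀ hg₀ y : V) = p g₀ hg₀ ⟨_, hact _ hu' y.1 y.2⟩ := by
        change ρ u (ρ g₀⁻¹ (y.1 g₀)) = ρ g₀⁻¹ (ρ (g₀ * u * g₀⁻¹) (y.1 g₀))
        rw [← act_mul, ← act_mul]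
        congr 1
        group
      rw [h1, hA1, hA1]
      change ρ g₁⁻¹ (ρ (g₀ * u * g₀⁻¹) (y.1 g₁)) = ρ (g₁⁻¹ * g₀ * u * (g₁⁻¹ * g₀)⁻¹) (ρ g₁⁻¹ (y.1 g₁))
      rw [← act_mul, ← act_mul]
      congr 1
      group

/-- the number of classes is at most the dimension -/
theorem card_le [FiniteDimensional K V] (hM : MinSub ρ U₀ W) (s : Finset G)
    (hs : ∀ g ∈ s, ∀ g' ∈ s, g ≠ g' → ¬ InH ρ W (g⁻¹ * g')) : s.card ≤ finrank K V := by
  classical
  obtain ⟨w, hw, hw0⟩ := (Submodule.ne_bot_iff W).1 hM.ne_bot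
  have hli : LinearIndependent K fun g : s => ρ g.1 w := by
    rw [Fintype.linearIndependent_iff]
    intro c hc g
    set x : G → V := fun g => if h : g ∈ s then c ⟨g, h⟩ • ρ g w else 0 with hx
    have h1 := indep hM s.card s rfl hs x (fun g hg => by
      simp only [hx, hg, dif_pos, map_smul, act_inv]
      exact W.smul_mem _ hw) (by
      rw [← hc, ← Finset.sum_coe_sort s]
      refine Finset.sum_congr rfl fun g _ => ?_
      simp only [hx, g.2, dif_pos]) g.1 g.2
    simp only [hx, g.2, dif_pos] at h1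
    rcases smul_eq_zero.1 h1 with h2 | h2
    · exact h2
    · exact absurd (act_inj ρ g.1 (by rw [h2, map_zero])) hw0
  have := hli.fintype_card_le_finrank
  simpa using this

/-- the index of the commensurator is at most the dimension -/
theorem index_le [FiniteDimensional K V] [CompactSpace G] (hM : MinSub ρ U₀ W) :
    (HH hM).index ≤ finrank K V ∧ 0 < (HH hM).index ∧ IsOpen (HH hM : Set G) := by
  classical
  have ho : IsOpen (HH hM : Set G) := Subgroup.isOpen_mono (le_HH hM) hM.isOpen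
  have hfin : Finite (G ⧸ HH hM) := Subgroup.quotient_finite_of_isOpen _ ho
  have hfi : (HH hM).FiniteIndex := Subgroup.finiteIndex_of_finite_quotient
  have : Fintype (G ⧸ HH hM) := Fintype.ofFinite _
  refine ⟨?_, Nat.pos_of_ne_zero hfi.index_ne_zero, ho⟩
  have h1 := card_le hM (Finset.univ.image (Quotient.out : G ⧸ HH hM → G)) (by
    intro g hg g' hg' hne hin
    obtain ⟨a, -, rfl⟩ := Finset.mem_image.1 hg
    obtain ⟨b, -, rfl⟩ := Finset.mem_image.1 hg'
    apply hne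
    have h2 : (Quotient.out a)⁻¹ * Quotient.out b ∈ HH hM := hin
    have h3 : ((Quotient.out a : G) : G ⧸ HH hM) = ((Quotient.out b : G) : G ⧸ HH hM) :=
      QuotientGroup.eq.2 h2
    rw [QuotientGroup.out_eq', QuotientGroup.out_eq'] at h3
    rw [h3])
  rw [Finset.card_image_of_injective _ Quotient.out_injective, Finset.card_univ] at h1
  rw [Subgroup.index_eq_card, Nat.card_eq_fintype_card]
  exact h1

end Pool.Agent.U849.SS
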