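import Mathlib

/-!
# Supersingular Frobenius polynomials
-/

set_option autoImplicit false

namespace Pool.Agent.U849.SS

open Polynomial

/-- Kronecker's theorem with a uniform exponent -/
theorem exists_exp (n : ℕ) : ∃ M : ℕ, 0 < M ∧ ∀ p : ℤ[X], p.Monic → p.natDegree ≤ n →
    (∀ z : ℂ, (p.map (Int.castRingHom ℂ)).IsRoot z → ‖z‖ = 1) →
    ∀ z : ℂ, (p.map (Int.castRingHom ℂ)).IsRoot z → z ^ M = 1 := by
  classical
  have hfin := Polynomial.finite_mahlerMeasure_le n 1
  let e : ℂ → ℕ := fun z => if h : ∃ m, 0 < m ∧ z ^ m = 1 then h.choose else 1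
  have he0 : ∀ z, 0 < e z := by
    intro z
    by_cases h : ∃ m, 0 < m ∧ z ^ m = 1
    · have h1 : e z = h.choose := dif_pos h
      rw [h1]
      exact h.choose_spec.1
    · have h1 : e z = 1 := dif_neg h
      rw [h1]
      exact one_pos
  have he1 : ∀ z, (∃ m, 0 < m ∧ z ^ m = 1) → z ^ e z = 1 := by
    intro z h
    have h1 : e z = h.choose := dif_pos h
    rw [h1]
    exact h.choose_spec.2
  refine ⟨∏ p ∈ hfin.toFinset, ∏ z ∈ (p.map (Int.castRingHom ℂ)).roots.toFinset, e z,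
    Finset.prod_pos fun p _ => Finset.prod_pos fun z _ => he0 z, ?_⟩
  intro p hp hdeg hnorm z hz
  have hp0 : p.map (Int.castRingHom ℂ) ≠ 0 := (hp.map _).ne_zero
  have hmah : (p.map (Int.castRingHom ℂ)).mahlerMeasure = 1 := by
    rw [mahlerMeasure_eq_leadingCoeff_mul_prod_roots, (hp.map _).leadingCoeff, norm_one, one_mul]
    apply Multiset.prod_eq_one
    intro x hx
    obtain ⟨a, ha, rfl⟩ := Multiset.mem_map.1 hx
    rw [hnorm a (isRoot_of_mem_roots ha), max_self]
  have hmem : p ∈ hfin.toFinset := by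
    rw [Set.Finite.mem_toFinset]
    exact ⟨hdeg, by rw [hmah]; simp⟩
  have hzr : z ∈ (p.map (Int.castRingHom ℂ)).roots.toFinset := by
    rw [Multiset.mem_toFinset, mem_roots hp0]
    exact hz
  have hz0 : z ≠ 0 := by
    intro h0
    have := hnorm z hz
    rw [h0, norm_zero] at this
    exact zero_ne_one this
  have h1 : e z ∣ ∏ p ∈ hfin.toFinset, ∏ z ∈ (p.map (Int.castRingHom ℂ)).roots.toFinset, e z :=
    (Finset.dvd_prod_of_mem e hzr).trans
      (Finset.dvd_prod_of_mem (fun p => ∏ z ∈ (p.map (Int.castRingHom ℂ)).roots.toFinset, e z) hmem)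
  obtain ⟨k, hk⟩ := h1
  rw [hk, pow_mul, he1 z (pow_eq_one_of_mahlerMeasure_eq_one hmah hz0 (by
    rw [aroots_def]
    exact Multiset.mem_toFinset.1 hzr)), one_pow]

/-- the roots of a supersingular polynomial -/
theorem root_pow {n M : ℕ} (hM : ∀ p : ℤ[X], p.Monic → p.natDegree ≤ n →
    (∀ z : ℂ, (p.map (Int.castRingHom ℂ)).IsRoot z → ‖z‖ = 1) →
    ∀ z : ℂ, (p.map (Int.castRingHom ℂ)).IsRoot z → z ^ M = 1)
    {p : ℤ[X]} (hp : p.Monic) (hdeg : p.natDegree = n) {s : ℕ} (hs : 0 < s)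
    (hdvd : ∀ i ≤ n, (s : ℤ) ^ (n - i) ∣ p.coeff i)
    (hnorm : ∀ z : ℂ, (p.map (Int.castRingHom ℂ)).IsRoot z → ‖z‖ = s) {z : ℂ}
    (hz : (p.map (Int.castRingHom ℂ)).IsRoot z) : z ^ M = (s : ℂ) ^ M := by
  classical
  set r : ℤ[X] := ∑ i ∈ Finset.range (n + 1), C (p.coeff i / (s : ℤ) ^ (n - i)) * X ^ i with hr
  have hrc : ∀ i ≤ n, r.coeff i * (s : ℤ) ^ (n - i) = p.coeff i := by
    intro i hi
    rw [hr, finsetSum_coeff]
    rw [Finset.sum_eq_single i]
    · rw [coeff_C_mul, coeff_X_pow, if_pos rfl, mul_one]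
      exact Int.ediv_mul_cancel (hdvd i hi)
    · intro j _ hj
      rw [coeff_C_mul, coeff_X_pow, if_neg (Ne.symm hj), mul_zero]
    · intro h
      exact absurd (Finset.mem_range.2 (Nat.lt_succ_of_le hi)) h
  have hrdeg : r.natDegree ≤ n := by
    rw [hr]
    apply natDegree_sum_le_of_forall_le
    intro i hi
    exact (natDegree_C_mul_X_pow_le _ _).trans (Nat.lt_succ_iff.1 (Finset.mem_range.1 hi))
  have hrm : r.Monic := by
    apply monic_of_natDegree_le_of_coeff_eq_one n hrdeg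
    have h1 := hrc n le_rfl
    rw [Nat.sub_self, pow_zero, mul_one] at h1
    rw [h1, ← hdeg]
    exact hp
  have hs0 : (s : ℂ) ≠ 0 := by exact_mod_cast hs.ne'
  have key : ∀ y : ℂ, (p.map (Int.castRingHom ℂ)).eval (s * y) =
      (s : ℂ) ^ n * (r.map (Int.castRingHom ℂ)).eval y := by
    intro y
    have h1 : (p.map (Int.castRingHom ℂ)).natDegree < n + 1 := by
      rw [hp.natDegree_map, hdeg]
      exact Nat.lt_succ_self n
    have h2 : (r.map (Int.castRingHom ℂ)).natDegree < n + 1 := by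
      rw [hrm.natDegree_map]
      exact Nat.lt_succ_of_le hrdeg
    rw [eval_eq_sum_range' h1, eval_eq_sum_range' h2, Finset.mul_sum]
    refine Finset.sum_congr rfl fun i hi => ?_
    have hi' : i ≤ n := Nat.lt_succ_iff.1 (Finset.mem_range.1 hi)
    rw [coeff_map, coeff_map, ← hrc i hi', mul_pow]
    have h3 : (s : ℂ) ^ n = (s : ℂ) ^ (n - i) * (s : ℂ) ^ i := by
      rw [← pow_add, Nat.sub_add_cancel hi']
    rw [h3]
    simp only [eq_intCast, Int.cast_mul, Int.cast_pow, Int.cast_natCast]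
    ring
  have hroot : ∀ y : ℂ, (r.map (Int.castRingHom ℂ)).IsRoot y → ‖y‖ = 1 := by
    intro y hy
    have h1 : (p.map (Int.castRingHom ℂ)).IsRoot (s * y) := by
      rw [IsRoot.def, key, hy.eq_zero, mul_zero]
    have h2 := hnorm _ h1
    rw [norm_mul, Complex.norm_natCast] at h2
    have h3 : (s : ℝ) ≠ 0 := by exact_mod_cast hs.ne'
    exact mul_left_cancel₀ h3 (h2.trans (mul_one _).symm)
  have h1 : (r.map (Int.castRingHom ℂ)).IsRoot (z / s) := by
    have h2 := key (z / s)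
    rw [mul_div_cancel₀ _ hs0, hz.eq_zero] at h2
    exact (mul_eq_zero.1 h2.symm).resolve_left (pow_ne_zero _ hs0)
  have h2 := hM r hrm hrdeg hroot _ h1
  rw [div_pow, div_eq_one_iff_eq (pow_ne_zero _ hs0)] at h2
  exact h2

/-- the matrix is unipotent up to its finite order part -/
theorem unip_of {F : Type} [Field F] {n M : ℕ} (A : Matrix (Fin n) (Fin n) F) {p : ℤ[X]}
    (hp : p.Monic) (hA : A.charpoly = p.map (Int.castRingHom F)) (s : ℕ)
    (hz : ∀ z : ℂ, (p.map (Int.castRingHom ℂ)).IsRoot z → z ^ M = (s : ℂ) ^ M) :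
    (A ^ M - (s : Matrix (Fin n) (Fin n) F) ^ M) ^ n = 0 := by
  classical
  set G : ℤ[X] := (X ^ M - (s : ℤ[X]) ^ M) ^ n with hG
  have hdeg : p.natDegree = n := by
    have h1 := congrArg natDegree hA
    rw [Matrix.charpoly_natDegree_eq_dim, Fintype.card_fin, hp.natDegree_map] at h1
    exact h1.symm
  have hdvd : p ∣ G := by
    rw [← map_dvd_map (Int.castRingHom ℂ) (RingHom.injective_int _) hp]
    have hsp : (p.map (Int.castRingHom ℂ)) =
        ((p.map (Int.castRingHom ℂ)).roots.map fun a => X - C a).prod :=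
      (IsAlgClosed.splits _).eq_prod_roots_of_monic (hp.map _)
    have hcard : (p.map (Int.castRingHom ℂ)).roots.card = n := by
      rw [← (IsAlgClosed.splits (p.map (Int.castRingHom ℂ))).natDegree_eq_card_roots,
        hp.natDegree_map, hdeg]
    have h1 : ((p.map (Int.castRingHom ℂ)).roots.map fun a => X - C a).prod ∣
        ((p.map (Int.castRingHom ℂ)).roots.map fun _ => (X ^ M - (s : ℂ[X]) ^ M)).prod := by
      apply Multiset.prod_dvd_prod_of_dvd
      intro a ha
      rw [dvd_iff_isRoot, IsRoot.def]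
      simp [hz a (isRoot_of_mem_roots ha)]
    rw [← hsp, Multiset.map_const', Multiset.prod_replicate, hcard] at h1
    have h2 : G.map (Int.castRingHom ℂ) = (X ^ M - (s : ℂ[X]) ^ M) ^ n := by
      rw [hG]
      simp
    rw [h2]
    exact h1
  obtain ⟨k, hk⟩ := hdvd
  have h1 : aeval A (G.map (Int.castRingHom F)) = 0 := by
    rw [hk, Polynomial.map_mul, map_mul, ← hA, Matrix.aeval_self_charpoly, zero_mul]
  have h2 : G.map (Int.castRingHom F) = (X ^ M - (s : F[X]) ^ M) ^ n := by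
    rw [hG]
    simp
  rw [h2] at h1
  simpa using h1

end Pool.Agent.U849.SS
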