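import Pool.Agent.U849.SS.Cheb
import Pool.Agent.U849.SS.Kron

/-!
# Compatible families with many supersingular places
-/

set_option autoImplicit false
set_option linter.unusedSectionVars false

namespace Pool.Agent.U849.SS

open NumberField Filter Topology IsDedekindDomain Pool.Agent.W401.Cheb Pool.Agent.R401.Sup
open Pool.Agent.W569.FM Pool.Agent.R401.Img Pool.Agent.R401.Eng Pool.Agent.R401.Sup2
open Pool.Agent.R401.Sup3 Pool.Agent.R401.Sup4 Polynomial Matrix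

variable {K : Type} [Field K] [NumberField K] {n : ℕ}

theorem fam (ρ : ∀ (ℓ : ℕ) [Fact ℓ.Prime], GK K →* GL (Fin n) ℚ_[ℓ])
    (B : Set (HeightOneSpectrum (𝓞 K))) (hB : B.Finite) (a : HeightOneSpectrum (𝓞 K) → ℚ) (u : ℕ)
    (htr : ∀ (ℓ : ℕ) [Fact ℓ.Prime], ∀ v, v ∉ B → (ℓ : 𝓞 K) ∉ v.asIdeal → ∀ g, IsFrob v g →
      (mt (ρ ℓ) g⁻¹).trace = (a v : ℚ_[ℓ]))
    (hU : ∀ (ℓ : ℕ) [Fact ℓ.Prime], ∃ U : Subgroup (GK K), U.Normal ∧
      IsOpen (U : Set (GK K)) ∧ ∀ x ∈ U, ∀ y, (tw (ρ ℓ) (cyc K ℓ ℚ_[ℓ]) (-(u : ℤ)) (x * y)).trace =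
        (tw (ρ ℓ) (cyc K ℓ ℚ_[ℓ]) (-(u : ℤ)) y).trace) :
    ∃ (φ : GK K → ℚ) (U : Subgroup (GK K)), U.Normal ∧
      IsOpen (U : Set (GK K)) ∧ (∀ x ∈ U, ∀ y, φ (x * y) = φ y) ∧
      ∀ (ℓ : ℕ) [Fact ℓ.Prime] (y : GK K),
        (tw (ρ ℓ) (cyc K ℓ ℚ_[ℓ]) (-(u : ℤ)) y).trace = (φ y : ℚ_[ℓ]) := by
  classical
  have h2p : Fact (Nat.Prime 2) := ⟨Nat.prime_two⟩
  -- a common Frobenius element
  have hcommon : ∀ (ℓ : ℕ) [Fact ℓ.Prime] (y : GK K), ∃ r : ℚ,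
      (tw (ρ 2) (cyc K 2 ℚ_[2]) (-(u : ℤ)) y).trace = (r : ℚ_[2]) ∧
      (tw (ρ ℓ) (cyc K ℓ ℚ_[ℓ]) (-(u : ℤ)) y).trace = (r : ℚ_[ℓ]) := by
    intro ℓ hℓ y
    obtain ⟨U₁, hU₁n, hU₁o, hU₁⟩ := hU 2
    obtain ⟨U₂, hU₂n, hU₂o, hU₂⟩ := hU ℓ
    have hn' : (U₁ ⊓ U₂).Normal := inferInstance
    have ho' : IsOpen ((U₁ ⊓ U₂ : Subgroup (GK K)) : Set (GK K)) := by
      rw [Subgroup.coe_inf]
      exact hU₁o.inter hU₂o
    obtain ⟨v, hv, γ, hγ, hyγ⟩ := Pool.Agent.R401.Tr2.exists_frob (U₁ ⊓ U₂) ho' y⁻¹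
      (S := B ∪ ({v | ((2 : ℕ) : 𝓞 K) ∈ v.asIdeal} ∪ {v | ((ℓ : ℕ) : 𝓞 K) ∈ v.asIdeal}))
      (hB.union ((Pool.Agent.W352.ChAbs.over_le 2 Nat.prime_two).1.union
        (Pool.Agent.W352.ChAbs.over_le ℓ (Fact.out : ℓ.Prime)).1))
    rw [Set.mem_union, Set.mem_union, not_or, not_or, Set.mem_ofPred_eq, Set.mem_ofPred_eq] at hv
    rw [inv_inv] at hyγ
    have hy : y = (y * γ) * γ⁻¹ := by rw [mul_inv_cancel_right]
    have key : ∀ (ℓ' : ℕ) [Fact ℓ'.Prime], ((ℓ' : ℕ) : 𝓞 K) ∉ v.asIdeal →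
        (∀ y', (tw (ρ ℓ') (cyc K ℓ' ℚ_[ℓ']) (-(u : ℤ)) ((y * γ) * y')).trace =
          (tw (ρ ℓ') (cyc K ℓ' ℚ_[ℓ']) (-(u : ℤ)) y').trace) →
        (tw (ρ ℓ') (cyc K ℓ' ℚ_[ℓ']) (-(u : ℤ)) y).trace =
          (((Ideal.absNorm v.asIdeal : ℚ) ^ u)⁻¹ * a v : ℚ) := by
      intro ℓ' _ hℓ' h
      rw [hy, h, Pool.Agent.R401.Sup4.tw_apply, Matrix.trace_smul, htr ℓ' v hv.1 hℓ' γ hγ, neg_neg,
        c_inv, cyc_frob ℓ' ℚ_[ℓ'] hℓ' hγ, smul_eq_mul]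
      push_cast
      rw [_root_.inv_zpow, _root_.zpow_natCast]
    refine ⟨((Ideal.absNorm v.asIdeal : ℚ) ^ u)⁻¹ * a v, ?_, ?_⟩
    · exact key 2 hv.2.1 fun y' => hU₁ _ hyγ.1 y'
    · exact key ℓ hv.2.2 fun y' => hU₂ _ hyγ.2 y'
  have hφ : ∀ y : GK K, ∃ r : ℚ, (tw (ρ 2) (cyc K 2 ℚ_[2]) (-(u : ℤ)) y).trace = (r : ℚ_[2]) :=
    fun y => by
      obtain ⟨r, hr, -⟩ := hcommon 2 y
      exact ⟨r, hr⟩
  choose φ hφ using hφ
  obtain ⟨U, hUn, hUo, hU2⟩ := hU 2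
  refine ⟨φ, U, hUn, hUo, ?_, ?_⟩
  · intro x hx y
    have h1 := hU2 x hx y
    rw [hφ, hφ] at h1
    exact_mod_cast h1
  · intro ℓ hℓ y
    obtain ⟨r, hr1, hr2⟩ := hcommon ℓ y
    have h1 : φ y = r := by
      rw [hφ] at hr1
      exact_mod_cast hr1
    rw [hr2, h1]

/-- the eigenvalues at all places -/
theorem all_places {ℓ : ℕ} [Fact ℓ.Prime] (ρ : GK K →* GL (Fin n) ℚ_[ℓ]) (u : ℕ) (φ : GK K → ℚ)
    (U : Subgroup (GK K)) (hUn : U.Normal)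
    (hU : ∀ x ∈ U, ∀ y, φ (x * y) = φ y)
    (hφ : ∀ y : GK K, (tw ρ (cyc K ℓ ℚ_[ℓ]) (-(u : ℤ)) y).trace = (φ y : ℚ_[ℓ])) {v : HeightOneSpectrum (𝓞 K)}
    (hv : (ℓ : 𝓞 K) ∉ v.asIdeal) {g : GK K} (hg : IsFrob v g) :
    IsNilpotent (mt ρ g⁻¹ ^ U.index - (((Ideal.absNorm v.asIdeal) ^ u : ℕ) :
      Matrix (Fin n) (Fin n) ℚ_[ℓ]) ^ U.index) := by
  have hmem : (g⁻¹) ^ U.index ∈ U := by
    have := Subgroup.pow_index_mem U g⁻¹
    exact this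
  have h1 := Pool.Agent.R401.Tr6.unip ρ u φ U hU hφ _ hmem
  rw [map_pow] at h1
  have hc := cyc_frob ℓ ℚ_[ℓ] hv hg
  set s : ℚ_[ℓ] := ((Ideal.absNorm v.asIdeal : ℚ_[ℓ])) ^ u with hs
  have hN0 : (Ideal.absNorm v.asIdeal : ℚ_[ℓ]) ≠ 0 := by
    rw [← hc]
    exact c_ne _ g
  have hs0 : s ≠ 0 := pow_ne_zero _ hN0
  have h2 : tw ρ (cyc K ℓ ℚ_[ℓ]) (-(u : ℤ)) g⁻¹ = s⁻¹ • mt ρ g⁻¹ := by
    rw [Pool.Agent.R401.Sup4.tw_apply, c_inv, hc, neg_neg, zpow_natCast, inv_pow]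
  have h5 : (((Ideal.absNorm v.asIdeal) ^ u : ℕ) : Matrix (Fin n) (Fin n) ℚ_[ℓ]) = s • 1 := by
    rw [hs, Nat.cast_pow, ← Nat.cast_pow, ← Nat.cast_pow, Nat.cast_smul_eq_nsmul, nsmul_one]
  have h3 : mt ρ g⁻¹ ^ U.index - (((Ideal.absNorm v.asIdeal) ^ u : ℕ) :
      Matrix (Fin n) (Fin n) ℚ_[ℓ]) ^ U.index = s ^ U.index •
        (tw ρ (cyc K ℓ ℚ_[ℓ]) (-(u : ℤ)) g⁻¹ ^ U.index - 1) := by
    rw [h2, _root_.smul_pow, smul_sub, smul_smul, ← mul_pow, mul_inv_cancel₀ hs0, one_pow, one_smul, h5,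
      _root_.smul_pow, one_pow]
  rw [h3]
  exact h1.smul _

/-- the characteristic polynomial -/
theorem charpoly_dvd {F : Type} [Field F] (A : Matrix (Fin n) (Fin n) F) (s m : ℕ)
    (h : IsNilpotent (A ^ m - (s : Matrix (Fin n) (Fin n) F) ^ m)) {p : ℤ[X]} (hp : p.Monic)
    (hA : A.charpoly = p.map (Int.castRingHom F)) [CharZero F] :
    p ∣ (X ^ m - (s : ℤ[X]) ^ m) ^ n := by
  classical
  have hdeg : p.natDegree = n := by
    have h1 := congrArg natDegree hA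
    rw [Matrix.charpoly_natDegree_eq_dim, Fintype.card_fin, hp.natDegree_map] at h1
    exact h1.symm
  let E := AlgebraicClosure F
  set f : ℤ →+* E := Int.castRingHom E with hf
  have hfi : Function.Injective f := RingHom.injective_int _
  set A' : Matrix (Fin n) (Fin n) E := A.map (algebraMap F E) with hA'
  have hA'c : A'.charpoly = p.map f := by
    rw [hA', Matrix.charpoly_map, hA, Polynomial.map_map]
    congr 1
  have h' : IsNilpotent (A' ^ m - (s : Matrix (Fin n) (Fin n) E) ^ m) := by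
    have h1 := h.map ((algebraMap F E).mapMatrix (m := Fin n))
    rw [map_sub, map_pow, map_pow, map_natCast] at h1
    exact h1
  have hroot : ∀ z ∈ (p.map f).roots, z ^ m = (s : E) ^ m := by
    intro z hz
    have hz1 : A'.charpoly.eval z = 0 := by
      rw [hA'c]
      exact isRoot_of_mem_roots hz
    rw [Matrix.eval_charpoly] at hz1
    obtain ⟨x, hx0, hx⟩ := Matrix.exists_mulVec_eq_zero_iff.2 hz1
    have hx1 : A' *ᵥ x = z • x := by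
      rw [Matrix.sub_mulVec, sub_eq_zero, Matrix.scalar_apply, Matrix.diagonal_const_mulVec] at hx
      exact hx.symm
    have hx2 : ∀ k : ℕ, (A' ^ k) *ᵥ x = z ^ k • x := by
      intro k
      induction k with
      | zero => simp
      | succ k ih => rw [pow_succ', ← Matrix.mulVec_mulVec, ih, Matrix.mulVec_smul, hx1, smul_smul, pow_succ]
    have hsx : ((s : Matrix (Fin n) (Fin n) E) ^ m) *ᵥ x = (s : E) ^ m • x := by
      have h6 : (s : Matrix (Fin n) (Fin n) E) = (s : E) • 1 := by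
        rw [Nat.cast_smul_eq_nsmul, nsmul_one]
      rw [h6, _root_.smul_pow, one_pow, Matrix.smul_mulVec, Matrix.one_mulVec]
    obtain ⟨N, hN⟩ := h'
    have hx3 : ∀ k : ℕ, ((A' ^ m - (s : Matrix (Fin n) (Fin n) E) ^ m) ^ k) *ᵥ x =
        (z ^ m - (s : E) ^ m) ^ k • x := by
      intro k
      induction k with
      | zero => simp
      | succ k ih =>
        rw [pow_succ', ← Matrix.mulVec_mulVec, ih, Matrix.mulVec_smul, Matrix.sub_mulVec, hx2, hsx,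
          ← sub_smul, smul_smul, pow_succ]
    have hx4 := hx3 N
    rw [hN, Matrix.zero_mulVec] at hx4
    rcases smul_eq_zero.1 hx4.symm with h7 | h7
    · exact sub_eq_zero.1 (eq_zero_of_pow_eq_zero h7)
    · exact absurd h7 hx0
  rw [← map_dvd_map f hfi hp]
  have hsp : (p.map f) = ((p.map f).roots.map fun a => X - C a).prod :=
    (IsAlgClosed.splits _).eq_prod_roots_of_monic (hp.map _)
  have hcard : (p.map f).roots.card = n := by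
    rw [← (IsAlgClosed.splits (p.map f)).natDegree_eq_card_roots, hp.natDegree_map, hdeg]
  have h1 : ((p.map f).roots.map fun a => X - C a).prod ∣
      ((p.map f).roots.map fun _ => (X ^ m - (s : E[X]) ^ m)).prod := by
    apply Multiset.prod_dvd_prod_of_dvd
    intro a ha
    rw [dvd_iff_isRoot, IsRoot.def]
    simp [hroot a ha]
  rw [← hsp, Multiset.map_const', Multiset.prod_replicate, hcard] at h1
  have h2 : ((X ^ m - (s : ℤ[X]) ^ m) ^ n).map f = (X ^ m - (s : E[X]) ^ m) ^ n := by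
    simp
  rw [h2]
  exact h1

end Pool.Agent.U849.SS
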