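import Mathlib

/-!
# Linear algebra
-/

set_option autoImplicit false
set_option linter.unusedSectionVars false

namespace Pool.Agent.U849.SS

open Module

section trace

variable {K V : Type} [Field K] [AddCommGroup V] [Module K V] [FiniteDimensional K V]
  (W : Submodule K V)

open Module.Basis in
/-- the trace is additive -/
theorem trace_add (e : V →ₗ[K] V) (he : W ≤ W.comap e) :
    LinearMap.trace K V e = LinearMap.trace K W (e.restrict he) +
      LinearMap.trace K (V ⧸ W) (W.mapQ W e he) := by
  classical
  let m := Module.Free.ChooseBasisIndex K W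
  let bW : Basis m K W := Module.Free.chooseBasis K W
  let n := Module.Free.ChooseBasisIndex K (V ⧸ W)
  let bQ : Basis n K (V ⧸ W) := Module.Free.chooseBasis K (V ⧸ W)
  let b := sumQuot bW bQ
  let A : Matrix m m K := LinearMap.toMatrix bW bW (e.restrict he)
  let B : Matrix m n K := Matrix.of fun i l ↦
    ((sumQuot bW bQ).repr (e ((sumQuot bW bQ) (Sum.inr l)))) (Sum.inl i)
  let D : Matrix n n K := LinearMap.toMatrix bQ bQ (W.mapQ W e he)
  suffices h : LinearMap.toMatrix b b e = Matrix.fromBlocks A B 0 D by
    rw [LinearMap.trace_eq_matrix_trace K b, h, LinearMap.trace_eq_matrix_trace K bW,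
      LinearMap.trace_eq_matrix_trace K bQ]
    simp only [Matrix.trace, Matrix.diag_apply, Fintype.sum_sum_type, Matrix.fromBlocks_apply₁₁,
      Matrix.fromBlocks_apply₂₂, A, D]
  ext u v
  cases u with
  | inl i =>
    cases v with
    | inl k =>
      simp only [b, sumQuot_inl, Matrix.fromBlocks_apply₁₁, A, LinearMap.toMatrix_apply]
      apply sumQuot_repr_inl_of_mem
    | inr l => simp [b, LinearMap.toMatrix_apply, Matrix.fromBlocks_apply₁₂, B]
  | inr j =>
    cases v with
    | inl k =>
      suffices W.mkQ (e (bW k)) = 0 by simp [LinearMap.toMatrix_apply, b, this]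
      rw [← LinearMap.mem_ker, Submodule.ker_mkQ]
      exact he (Submodule.coe_mem (bW k))
    | inr l =>
      simp only [LinearMap.toMatrix_apply, sumQuot_repr_inr,
        Matrix.fromBlocks_apply₂₂, b, D]
      rw [← sumQuot_inr bW bQ l, W.mapQ_apply]
      simp

end trace

section fin

variable {K V : Type} [Field K] [IsAlgClosed K] [AddCommGroup V] [Module K V] [FiniteDimensional K V]

/-- endomorphisms with a unipotent `M`-th power have finitely many traces -/
theorem finite_trace {M : ℕ} (hM : 0 < M) (N : ℕ) :
    {t : K | ∃ c : End K V, (c ^ M - 1) ^ N = 0 ∧ t = LinearMap.trace K V c}.Finite := by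
  classical
  set S : Finset K := (Polynomial.X ^ M - 1 : Polynomial K).roots.toFinset with hS
  have hSm : ∀ z : K, z ^ M = 1 → z ∈ S := by
    intro z hz
    rw [hS, Multiset.mem_toFinset, Polynomial.mem_roots']
    constructor
    · exact Polynomial.X_pow_sub_C_ne_zero hM (1 : K) ∘ fun h => by simpa using h
    · simp [Polynomial.IsRoot, hz]
  have hfin : (Set.range fun f : S → Fin (finrank K V + 1) => ∑ i : S, (f i : ℕ) • (i : K)).Finite :=
    Set.finite_range _
  refine hfin.subset ?_
  rintro t ⟨c, hc, rfl⟩
  have h1 : LinearMap.trace K V c = c.charpoly.roots.sum := by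
    rw [LinearMap.trace_eq_matrix_trace K (Module.finBasis K V),
      Matrix.trace_eq_sum_roots_charpoly, LinearMap.charpoly_toMatrix]
  have hcard : c.charpoly.roots.card ≤ finrank K V := by
    rw [← LinearMap.charpoly_natDegree c]
    exact Polynomial.card_roots' _
  have hroot : ∀ z ∈ c.charpoly.roots, z ∈ S := by
    intro z hz
    apply hSm
    have h2 : Module.End.HasEigenvalue c z := by
      rw [Module.End.hasEigenvalue_iff_isRoot_charpoly]
      exact (Polynomial.mem_roots'.1 hz).2
    obtain ⟨v, hv⟩ := h2.exists_hasEigenvector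
    have h3 : c v = z • v := hv.apply_eq_smul
    have h4 : ∀ k : ℕ, (c ^ k) v = z ^ k • v := by
      intro k
      induction k with
      | zero => simp
      | succ k ih => rw [pow_succ', Module.End.mul_apply, ih, map_smul, h3, smul_smul, pow_succ]
    have h5 : ∀ k : ℕ, ((c ^ M - 1) ^ k) v = (z ^ M - 1) ^ k • v := by
      intro k
      induction k with
      | zero => simp
      | succ k ih =>
        rw [pow_succ', Module.End.mul_apply, ih, map_smul, LinearMap.sub_apply, h4,
          Module.End.one_apply, smul_sub, smul_smul, pow_succ, mul_sub, mul_one, sub_smul]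
    have h6 := h5 N
    rw [hc, LinearMap.zero_apply] at h6
    rcases smul_eq_zero.1 h6.symm with h7 | h7
    · exact sub_eq_zero.1 (eq_zero_of_pow_eq_zero h7)
    · exact absurd h7 hv.2
  refine ⟨fun i => ⟨c.charpoly.roots.count (i : K), Nat.lt_succ_of_le
    ((Multiset.count_le_card _ _).trans hcard)⟩, ?_⟩
  change ∑ i : S, (c.charpoly.roots.count (i : K)) • (i : K) = _
  rw [h1, Finset.sum_multiset_count_of_subset c.charpoly.roots S (fun z hz =>
    hroot z (Multiset.mem_toFinset.1 hz)), ← Finset.sum_coe_sort S]

end fin

end Pool.Agent.U849.SS
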