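import Pool.Agent.U849.SS.Poly
import Pool.Agent.U849.SS.Alg
import Pool.Agent.U849.SS.Lin
import Pool.Agent.U849.SS.Burn

/-!
# Irreducible representations with many elements of bounded order
-/

set_option autoImplicit false
set_option linter.unusedSectionVars false

namespace Pool.Agent.U849.SS

open Module MeasureTheory MeasureTheory.Measure
open scoped ENNReal

variable {K V : Type} [Field K] [IsAlgClosed K] [AddCommGroup V] [Module K V] [FiniteDimensional K V]
  {G : Type} [Group G] [TopologicalSpace G] [IsTopologicalGroup G]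

/-- the representation of `U` on the stable subspace `W` -/
def res (ρ : G →* End K V) {U : Subgroup G} {W : Submodule K V} (h : Stb ρ U W) : U →* End K W where
  toFun u := (ρ u).restrict (h u u.2)
  map_one' := by
    ext w
    simp [LinearMap.restrict_apply]
  map_mul' a b := by
    ext w
    simp [LinearMap.restrict_apply]

theorem res_apply (ρ : G →* End K V) {U : Subgroup G} {W : Submodule K V} (h : Stb ρ U W) (u : U)
    (w : W) : (res ρ h u w : V) = ρ u w := rfl

variable {ρ : G →* End K V} {U₀ : Subgroup G} {W : Submodule K V}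

theorem eigen (hM : MinSub ρ U₀ W) {h : G} (hh : InH ρ W h)
    (hG : ∀ U : Subgroup G, IsOpen (U : Set G) → ∃ U' : Subgroup G, U'.Normal ∧ IsOpen (U' : Set G) ∧ U' ≤ U)
    (U : Subgroup G) (hUo : IsOpen (U : Set G)) :
    ∃ (U' : Subgroup G) (hle : U' ≤ U₀), IsOpen (U' : Set G) ∧ U' ≤ U ∧
      ∃ (f : W →ₗ[K] V) (c c' : End K W), Function.Injective f ∧ c * c' = 1 ∧
        ∀ (u : U') (w : W), f ((c * res ρ (fun u hu => hM.stb u (hle hu)) u) w) = ρ (h * u) (f w) := by
  classical
  obtain ⟨U₁, A, hU₁, hAW, hA0, hA⟩ := hh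
  obtain ⟨U', hn, ho, hle⟩ := hG (U ⊓ U₀ ⊓ U₁) (by
    rw [Subgroup.coe_inf, Subgroup.coe_inf]
    exact (hUo.inter hM.isOpen).inter hU₁)
  have hle₀ : U' ≤ U₀ := fun u hu => (hle hu).1.2
  have hleU : U' ≤ U := fun u hu => (hle hu).1.1
  have hle₁ : U' ≤ U₁ := fun u hu => (hle hu).2
  have hst : Stb ρ U' W := fun u hu => hM.stb u (hle₀ hu)
  have hinj := inj_of hM hU₁ hA0 hA
  have hsurj := surj_of hM hU₁ hAW hA0 hA
  have hbij : Function.Bijective (A.restrict hAW) := by
    constructor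
    · rw [← LinearMap.ker_eq_bot, LinearMap.ker_eq_bot']
      intro x hx
      exact Subtype.ext (hinj x x.2 (congrArg Subtype.val hx))
    · rintro ⟨w, hw⟩
      obtain ⟨x, hx, hxw⟩ := hsurj w hw
      exact ⟨⟨x, hx⟩, Subtype.ext hxw⟩
  set e : W ≃ₗ[K] W := LinearEquiv.ofBijective (A.restrict hAW) hbij with he
  set r := res ρ hst with hr
  have her : ∀ (u : U') (w : W), e (r u w) = r ⟨h * u * h⁻¹, hn.conj_mem u u.2 h⟩ (e w) := by
    intro u w
    apply Subtype.ext
    exact (hA u (hle₁ u.2) w w.2).2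
  -- the equivariant maps
  let X : Submodule K (W →ₗ[K] V) :=
    { carrier := {f | ∀ (u : U') (w : W), f (r u w) = ρ u (f w)}
      add_mem' := fun {a b} ha hb u w => by
        rw [LinearMap.add_apply, ha, hb, LinearMap.add_apply, map_add]
      zero_mem' := fun u w => by simp
      smul_mem' := fun k a ha u w => by
        rw [LinearMap.smul_apply, ha, LinearMap.smul_apply, map_smul] }
  have hΦ : ∀ f ∈ X, (ρ h ∘ₗ f ∘ₗ (e.symm : W →ₗ[K] W)) ∈ X := by
    intro f hf u w
    have hu' : h⁻¹ * (u : G) * h ∈ U' := by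
      have := hn.conj_mem u u.2 h⁻¹
      rwa [inv_inv] at this
    have h1 : e.symm (r u w) = r ⟨h⁻¹ * u * h, hu'⟩ (e.symm w) := by
      rw [LinearEquiv.symm_apply_eq, her, LinearEquiv.apply_symm_apply]
      congr 2
      apply Subtype.ext
      change (u : G) = h * (h⁻¹ * u * h) * h⁻¹
      group
    change ρ h (f (e.symm (r u w))) = ρ u (ρ h (f (e.symm w)))
    rw [h1, hf, ← act_mul, ← act_mul]
    congr 2
    change h * (h⁻¹ * u * h) = u * h
    group
  let Φ : End K X :=
    { toFun := fun f => ⟨ρ h ∘ₗ f.1 ∘ₗ (e.symm : W →ₗ[K] W), hΦ f.1 f.2⟩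
      map_add' := fun a b => by
        apply Subtype.ext
        ext w
        simp
      map_smul' := fun k a => by
        apply Subtype.ext
        ext w
        simp }
  have hWX : W.subtype ∈ X := fun u w => rfl
  have hW0 : W.subtype ≠ 0 := by
    intro h0
    apply hM.ne_bot
    rw [eq_bot_iff]
    intro w hw
    have := congrArg (fun f => f ⟨w, hw⟩) h0
    simpa using this
  have hnt : Nontrivial X := ⟨⟨⟨W.subtype, hWX⟩, 0, fun h0 => hW0 (congrArg Subtype.val h0)⟩⟩
  obtain ⟨κ, hκ⟩ := Module.End.exists_eigenvalue Φ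
  obtain ⟨f, hf⟩ := hκ.exists_hasEigenvector
  have hf1 : ∀ w : W, ρ h (f.1 (e.symm w)) = κ • f.1 w := by
    intro w
    have h1 := congrArg Subtype.val hf.apply_eq_smul
    exact congrArg (fun g => g w) h1
  have hf0 : f.1 ≠ 0 := fun h0 => hf.2 (Subtype.ext h0)
  have hf2 : ∀ w : W, ρ h (f.1 w) = κ • f.1 (e w) := by
    intro w
    rw [← hf1, LinearEquiv.symm_apply_apply]
  have hκ0 : κ ≠ 0 := by
    rintro rfl
    apply hf0
    ext w
    have h1 := hf2 w
    rw [zero_smul] at h1
    rw [act_inj ρ h (h1.trans (map_zero _).symm), LinearMap.zero_apply]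
  have hfinj : Function.Injective f.1 := by
    rw [← LinearMap.ker_eq_bot]
    have hst' : Stb ρ U' ((LinearMap.ker f.1).map W.subtype) := by
      rintro u hu _ ⟨w, hw, rfl⟩
      refine ⟨r ⟨u, hu⟩ w, ?_, rfl⟩
      have h1 : f.1 w = 0 := hw
      change f.1 (r ⟨u, hu⟩ w) = 0
      rw [f.2 ⟨u, hu⟩ w, h1, map_zero]
    rcases hM.min U' _ ho hst' (by rintro _ ⟨w, -, rfl⟩; exact w.2) with h1 | h1
    · rw [eq_bot_iff]
      intro w hw
      have h2 : (w : V) ∈ (LinearMap.ker f.1).map W.subtype := ⟨w, hw, rfl⟩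
      rw [h1] at h2
      exact Subtype.ext ((Submodule.mem_bot K).1 h2)
    · exfalso
      apply hf0
      ext w
      have h2 : (w : V) ∈ (LinearMap.ker f.1).map W.subtype := by
        rw [h1]
        exact w.2
      obtain ⟨w', hw', hww⟩ := h2
      have h3 : w' = w := Subtype.ext hww
      rw [← h3]
      exact hw'
  refine ⟨U', hle₀, ho, hleU, f.1, κ • (e : W →ₗ[K] W), κ⁻¹ • (e.symm : W →ₗ[K] W), hfinj, ?_, ?_⟩
  · ext w
    simp [smul_smul, hκ0]
  · intro u w
    change f.1 (κ • e (r u w)) = ρ (h * u) (f.1 w)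
    rw [map_smul, ← hf2, f.2, act_mul]

end Pool.Agent.U849.SS
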