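import Mathlib

/-!
# Closed sets of positive measure and functions of finite type on a profinite group
-/

set_option autoImplicit false
set_option linter.unusedSectionVars false

namespace Pool.Agent.U849.SS

open MeasureTheory MeasureTheory.Measure Set Topology Module
open scoped Pointwise ENNReal

variable {G : Type} [Group G] [TopologicalSpace G] [IsTopologicalGroup G] [CompactSpace G]
  [TotallyDisconnectedSpace G]

theorem exists_normal_mul_subset {X O : Set G} (hX : IsCompact X) (hO : IsOpen O) (h : X ⊆ O)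
    (H : Subgroup G) (hH : IsOpen (H : Set G)) :
    ∃ U : Subgroup G, U.Normal ∧ IsOpen (U : Set G) ∧ U ≤ H ∧ ∀ x ∈ X, ∀ u ∈ U, x * u ∈ O := by
  obtain ⟨V, hV, hXV⟩ := compact_open_separated_mul_right hX hO h
  have h1 : V ∩ (H : Set G) ∈ 𝓝 (1 : G) := Filter.inter_mem hV (hH.mem_nhds H.one_mem)
  obtain ⟨V', hV'1, hV'o, h1V'⟩ := mem_nhds_iff.1 h1
  obtain ⟨N, hN⟩ := ProfiniteGrp.exist_openNormalSubgroup_sub_open_nhds_of_one hV'o h1V'
  refine ⟨N.toSubgroup, N.isNormal', N.isOpen', fun u hu => (hV'1 (hN hu)).2, fun x hx u hu => ?_⟩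
  exact hXV (Set.mul_mem_mul hx (hV'1 (hN hu)).1)

variable [MeasurableSpace G] [BorelSpace G] (μ : Measure G) [μ.IsMulLeftInvariant] [IsFiniteMeasure μ]

omit [CompactSpace G] [TotallyDisconnectedSpace G] [IsFiniteMeasure μ] in
theorem measure_coset (U : Subgroup G) (h : G) : μ {y | h⁻¹ * y ∈ U} = μ (U : Set G) :=
  measure_preimage_mul μ h⁻¹ (U : Set G)

/-- in a closed set of positive measure there are cosets which are nearly full -/
theorem dense_coset [μ.OuterRegular] {X : Set G} (hX : IsClosed X) (hpos : μ X ≠ 0) (H : Subgroup G)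
    (hH : IsOpen (H : Set G)) {ε : ℝ≥0∞} (hε : ε ≠ 0) :
    ∃ (U : Subgroup G) (h : G), U.Normal ∧ IsOpen (U : Set G) ∧ U ≤ H ∧ h ∈ X ∧
      μ ({y | h⁻¹ * y ∈ U} \ X) < ε * μ (U : Set G) := by
  classical
  by_contra hcon
  push Not at hcon
  have hfin : μ X ≠ ⊤ := measure_ne_top μ X
  have h0 : μ X < μ X + ε * μ X := ENNReal.lt_add_right hfin (mul_ne_zero hε hpos)
  obtain ⟨O, hXO, hO, hOlt⟩ := X.exists_isOpen_lt_of_lt _ h0
  obtain ⟨U, hUn, hUo, hUH, hXU⟩ := exists_normal_mul_subset hX.isCompact hO hXO H hH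
  have hfinQ : Finite (G ⧸ U) := Subgroup.quotient_finite_of_isOpen _ hUo
  have hft : Fintype (G ⧸ U) := Fintype.ofFinite _
  set q : G → G ⧸ U := fun g => (g : G ⧸ U) with hq
  set T : Finset (G ⧸ U) := Finset.univ.filter fun t => ∃ x ∈ X, q x = t with hT
  have hfib : ∀ x : G, q ⁻¹' {q x} = {y | x⁻¹ * y ∈ U} := by
    intro x
    ext y
    rw [Set.mem_preimage, Set.mem_singleton_iff]
    change ((y : G ⧸ U) = (x : G ⧸ U)) ↔ _
    rw [eq_comm, QuotientGroup.eq]
    rfl
  have hcl : ∀ t : G ⧸ U, MeasurableSet (q ⁻¹' {t}) := by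
    intro t
    obtain ⟨x, rfl⟩ := QuotientGroup.mk_surjective t
    have h1 : q ⁻¹' {q x} = (fun y => x⁻¹ * y) ⁻¹' (U : Set G) := hfib x
    change MeasurableSet (q ⁻¹' {q x})
    rw [h1]
    exact (hUo.preimage (continuous_const.mul continuous_id)).measurableSet
  have hmeas : ∀ t : G ⧸ U, μ (q ⁻¹' {t}) = μ (U : Set G) := by
    intro t
    obtain ⟨x, rfl⟩ := QuotientGroup.mk_surjective t
    change μ (q ⁻¹' {q x}) = _
    rw [hfib, measure_coset]
  have hXT : X ⊆ ⋃ t ∈ T, q ⁻¹' {t} := by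
    intro x hx
    exact Set.mem_biUnion (x := q x) (by simp only [hT, Finset.coe_filter, Finset.mem_univ, true_and]; exact ⟨x, hx, rfl⟩) rfl
  have hTO : (⋃ t ∈ T, (q ⁻¹' {t} \ X)) ⊆ O \ X := by
    intro y hy
    rw [Set.mem_iUnion₂] at hy
    obtain ⟨t, ht, hyt, hyX⟩ := hy
    obtain ⟨x, hx, rfl⟩ := (Finset.mem_filter.1 ht).2
    rw [hfib] at hyt
    refine ⟨?_, hyX⟩
    have := hXU x hx _ hyt
    rwa [mul_inv_cancel_left] at this
  have h1 : ε * μ X ≤ μ (O \ X) := by
    calc ε * μ X ≤ ε * μ (⋃ t ∈ T, q ⁻¹' {t}) := by gcongr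
      _ ≤ ε * ∑ t ∈ T, μ (q ⁻¹' {t}) := by
          gcongr
          exact measure_biUnion_finset_le T _
      _ = ∑ t ∈ T, ε * μ (U : Set G) := by
          rw [Finset.mul_sum]
          exact Finset.sum_congr rfl fun t _ => by rw [hmeas]
      _ ≤ ∑ t ∈ T, μ (q ⁻¹' {t} \ X) := by
          refine Finset.sum_le_sum fun t ht => ?_
          obtain ⟨x, hx, rfl⟩ := (Finset.mem_filter.1 ht).2
          rw [hfib]
          exact hcon U x hUn hUo hUH hx
      _ = μ (⋃ t ∈ T, (q ⁻¹' {t} \ X)) := by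
          rw [measure_biUnion_finset]
          · intro a _ b _ hab
            refine Set.disjoint_left.2 fun y hy hy' => hab ?_
            exact (Set.mem_singleton_iff.1 hy.1).symm.trans (Set.mem_singleton_iff.1 hy'.1)
          · intro t _
            exact (hcl t).diff hX.measurableSet
      _ ≤ μ (O \ X) := measure_mono hTO
  have h2 : μ (O \ X) = μ O - μ X := measure_sdiff hXO hX.measurableSet.nullMeasurableSet hfin
  rw [h2] at h1
  have h3 : μ X + ε * μ X ≤ μ O := by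
    have h4 : μ X ≤ μ O := measure_mono hXO
    calc μ X + ε * μ X ≤ μ X + (μ O - μ X) := by gcongr
      _ = μ O := add_tsub_cancel_of_le h4
  exact absurd hOlt (not_lt.2 h3)

/-- a function of finite type which vanishes on a large part of a coset vanishes on the coset -/
theorem vanish_coset {K : Type} [Field K] (L : Submodule K (G → K)) [FiniteDimensional K L]
    (hL : ∀ f ∈ L, ∀ g : G, (fun x => f (g * x)) ∈ L) {U : Subgroup G} (hUn : U.Normal) (h : G)
    {X : Set G} (hμ : (finrank K L : ℝ≥0∞) * μ ({y | h⁻¹ * y ∈ U} \ X) < μ (U : Set G))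
    {f : G → K} (hfL : f ∈ L) (hf : ∀ x ∈ X, f x = 0) : ∀ y, h⁻¹ * y ∈ U → f y = 0 := by
  classical
  set T : U → L := fun u => ⟨fun x => f ((u : G) * x), hL f hfL u⟩ with hT
  obtain ⟨κ, a, -, hspan, hli⟩ := exists_linearIndependent' K T
  have hκ : Finite κ := hli.finite
  have hft : Fintype κ := Fintype.ofFinite κ
  have hcard : Fintype.card κ ≤ finrank K L := hli.fintype_card_le_finrank
  set C : Set G := {y | h⁻¹ * y ∈ U} with hC
  have hmem : ∀ (u : U) (x : G), (u : G) * x ∈ C ↔ x ∈ C := by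
    intro u x
    have h1 : h⁻¹ * ((u : G) * x) = (h⁻¹ * u * h) * (h⁻¹ * x) := by group
    have h2 : h⁻¹ * (u : G) * h ∈ U := by
      have := hUn.conj_mem u u.2 h⁻¹
      rwa [inv_inv] at this
    change h⁻¹ * ((u : G) * x) ∈ U ↔ h⁻¹ * x ∈ U
    rw [h1]
    exact U.mul_mem_cancel_left h2
  have hbad : μ (⋃ k : κ, {x | x ∈ C ∧ ((a k : U) : G) * x ∉ X}) < μ C := by
    have hCU : μ C = μ (U : Set G) := measure_coset μ U h
    rw [hCU]
    refine lt_of_le_of_lt ?_ hμ
    calc μ (⋃ k : κ, {x | x ∈ C ∧ ((a k : U) : G) * x ∉ X})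
        ≤ ∑ k : κ, μ {x | x ∈ C ∧ ((a k : U) : G) * x ∉ X} := measure_iUnion_fintype_le _ _
      _ = ∑ k : κ, μ (C \ X) := by
          refine Finset.sum_congr rfl fun k _ => ?_
          have h1 : {x | x ∈ C ∧ ((a k : U) : G) * x ∉ X} =
              (fun x => ((a k : U) : G) * x) ⁻¹' (C \ X) := by
            ext x
            exact ⟨fun hx => ⟨(hmem _ _).2 hx.1, hx.2⟩, fun hx => ⟨(hmem _ _).1 hx.1, hx.2⟩⟩
          rw [h1]
          exact measure_preimage_mul μ _ _
      _ = (Fintype.card κ : ℝ≥0∞) * μ (C \ X) := by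
          rw [Finset.sum_const, Finset.card_univ, nsmul_eq_mul]
      _ ≤ (finrank K L : ℝ≥0∞) * μ (C \ X) := by
          gcongr
  obtain ⟨x, hxC, hx⟩ : ∃ x ∈ C, ∀ k : κ, ((a k : U) : G) * x ∈ X := by
    by_contra hcon
    push Not at hcon
    refine absurd hbad (not_lt.2 (measure_mono fun x hx => ?_))
    obtain ⟨k, hk⟩ := hcon x hx
    exact Set.mem_iUnion.2 ⟨k, hx, hk⟩
  let ev : L →ₗ[K] K :=
    { toFun := fun F => F.1 x
      map_add' := fun _ _ => rfl
      map_smul' := fun _ _ => rfl }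
  have hker : ∀ u : U, f ((u : G) * x) = 0 := by
    intro u
    have h1 : Submodule.span K (Set.range T) ≤ LinearMap.ker ev := by
      rw [← hspan, Submodule.span_le]
      rintro _ ⟨k, rfl⟩
      exact hf _ (hx k)
    have h2 : T u ∈ LinearMap.ker ev := h1 (Submodule.subset_span ⟨u, rfl⟩)
    exact h2
  intro y hy
  have h1 : y * x⁻¹ ∈ U := by
    have h2 : y * x⁻¹ = h * ((h⁻¹ * y) * (h⁻¹ * x)⁻¹) * h⁻¹ := by group
    rw [h2]
    exact hUn.conj_mem _ (U.mul_mem hy (U.inv_mem hxC)) h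
  have h3 := hker ⟨_, h1⟩
  simpa using h3

end Pool.Agent.U849.SS
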