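import Pool.Agent.U849.SS.Meas

/-!
# Polynomial functions in the matrix coefficients
-/

set_option autoImplicit false
set_option linter.unusedSectionVars false

namespace Pool.Agent.U849.SS

open Module MeasureTheory MeasureTheory.Measure
open scoped ENNReal

variable {K V : Type} [Field K] [AddCommGroup V] [Module K V] [FiniteDimensional K V]
  {G : Type} [Group G]

/-- the constants and the matrix coefficients -/
noncomputable def L1 (ρ : G →* End K V) : Submodule K (G → K) :=
  Submodule.span K (insert 1 (Set.range fun p : Fin (finrank K V) × Fin (finrank K V) =>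
    fun g => (Module.finBasis K V).coord p.1 (ρ g (Module.finBasis K V p.2))))

variable (ρ : G →* End K V)

theorem L1_fg : (L1 ρ).FG :=
  Submodule.fg_span ((Set.finite_range _).insert _)

theorem one_mem_L1 : (1 : G → K) ∈ L1 ρ := Submodule.subset_span (Set.mem_insert _ _)

theorem coeff_mem (φ : Dual K V) (v : V) : (fun g => φ (ρ g v)) ∈ L1 ρ := by
  classical
  set b := Module.finBasis K V with hb
  have h1 : (fun g => φ (ρ g v)) = ∑ j, ∑ i, (b.repr v j * φ (b i)) •
      (fun g => b.coord i (ρ g (b j))) := by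
    funext g
    simp only [Finset.sum_apply, Pi.smul_apply, smul_eq_mul]
    conv_lhs => rw [← b.sum_repr v, _root_.map_sum, _root_.map_sum]
    refine Finset.sum_congr rfl fun j _ => ?_
    rw [map_smul, map_smul, smul_eq_mul]
    conv_lhs => rw [← b.sum_repr (ρ g (b j)), _root_.map_sum, Finset.mul_sum]
    refine Finset.sum_congr rfl fun i _ => ?_
    rw [map_smul, smul_eq_mul, Basis.coord_apply]
    ring
  rw [h1]
  refine Submodule.sum_mem _ fun j _ => Submodule.sum_mem _ fun i _ => Submodule.smul_mem _ _ ?_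
  exact Submodule.subset_span (Set.mem_insert_of_mem _ ⟨(i, j), rfl⟩)

theorem trans_mem {f : G → K} (hf : f ∈ L1 ρ) (g₀ : G) : (fun x => f (g₀ * x)) ∈ L1 ρ := by
  unfold L1 at hf
  induction hf using Submodule.span_induction with
  | mem f hf =>
    rcases hf with rfl | ⟨p, rfl⟩
    · exact one_mem_L1 ρ
    · have h1 := coeff_mem ρ ((Module.finBasis K V).coord p.1 ∘ₗ ρ g₀) (Module.finBasis K V p.2)
      have h2 : (fun x => ((Module.finBasis K V).coord p.1 (ρ (g₀ * x) (Module.finBasis K V p.2)))) =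
          (fun g => ((Module.finBasis K V).coord p.1 ∘ₗ ρ g₀) (ρ g (Module.finBasis K V p.2))) := by
        funext g
        rw [map_mul]
        rfl
      rw [h2]
      exact h1
  | zero => exact (L1 ρ).zero_mem
  | add f f' _ _ h h' => exact (L1 ρ).add_mem h h'
  | smul k f _ h => exact (L1 ρ).smul_mem k h

/-- translation -/
def τ (K : Type) [Field K] (g₀ : G) : (G → K) →ₐ[K] (G → K) where
  toFun f x := f (g₀ * x)
  map_one' := rfl
  map_mul' _ _ := rfl
  map_zero' := rfl
  map_add' _ _ := rfl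
  commutes' _ := rfl

theorem trans_mem_pow (d : ℕ) {f : G → K} (hf : f ∈ L1 ρ ^ d) (g₀ : G) :
    (fun x => f (g₀ * x)) ∈ L1 ρ ^ d := by
  have h1 : (L1 ρ).map (τ K g₀).toLinearMap ≤ L1 ρ := by
    rintro _ ⟨f, hf, rfl⟩
    exact trans_mem ρ hf g₀
  have h2 : (L1 ρ ^ d).map (τ K g₀).toLinearMap ≤ L1 ρ ^ d := by
    rw [Submodule.map_pow]
    exact pow_le_pow_left' h1 d
  exact h2 ⟨f, hf, rfl⟩

theorem finiteDimensional_pow (d : ℕ) : FiniteDimensional K ↥(L1 ρ ^ d) :=
  Module.Finite.iff_fg.2 ((L1_fg ρ).pow d)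

/-- operator valued functions of bounded degree -/
def Deg (d : ℕ) (F : G → End K V) : Prop := ∀ (φ : Dual K V) (v : V), (fun g => φ (F g v)) ∈ L1 ρ ^ d

theorem deg_self : Deg ρ 1 (fun g => ρ g) := fun φ v => by
  rw [pow_one]
  exact coeff_mem ρ φ v

theorem deg_one (d : ℕ) : Deg ρ d (fun _ => 1) := fun φ v => by
  have h1 : (fun _ : G => φ ((1 : End K V) v)) = φ v • (1 : G → K) := by
    funext g
    simp
  rw [h1]
  refine Submodule.smul_mem _ _ ?_
  have := Submodule.pow_mem_pow (L1 ρ) (one_mem_L1 ρ) d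
  rwa [one_pow] at this

variable {ρ}

theorem Deg.mul {a b : ℕ} {F F' : G → End K V} (h : Deg ρ a F) (h' : Deg ρ b F') :
    Deg ρ (a + b) (fun g => F g * F' g) := fun φ v => by
  classical
  set e := Module.finBasis K V with he
  have h1 : (fun g => φ ((F g * F' g) v)) = ∑ i, (fun g => φ (F g (e i))) *
      (fun g => e.coord i (F' g v)) := by
    funext g
    simp only [Finset.sum_apply, Pi.mul_apply]
    rw [Module.End.mul_apply]
    conv_lhs => rw [← e.sum_repr (F' g v), _root_.map_sum, _root_.map_sum]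
    refine Finset.sum_congr rfl fun i _ => ?_
    rw [map_smul, map_smul, smul_eq_mul, Basis.coord_apply, mul_comm]
  rw [h1, pow_add]
  exact Submodule.sum_mem _ fun i _ => Submodule.mul_mem_mul (h φ (e i)) (h' (e.coord i) v)

theorem Deg.sub {a : ℕ} {F F' : G → End K V} (h : Deg ρ a F) (h' : Deg ρ a F') :
    Deg ρ a (fun g => F g - F' g) := fun φ v => by
  have h1 : (fun g => φ ((F g - F' g) v)) = (fun g => φ (F g v)) - (fun g => φ (F' g v)) := by
    funext g
    simp
  rw [h1]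
  exact Submodule.sub_mem _ (h φ v) (h' φ v)

theorem Deg.pow {a : ℕ} {F : G → End K V} (h : Deg ρ a F) (k : ℕ) :
    Deg ρ (a * k) (fun g => F g ^ k) := by
  induction k with
  | zero =>
    simp only [pow_zero]
    exact deg_one ρ _
  | succ k ih =>
    simp only [pow_succ]
    rw [mul_add, mul_one]
    exact ih.mul h

variable [TopologicalSpace G] [IsTopologicalGroup G] [CompactSpace G] [TotallyDisconnectedSpace G]
  [MeasurableSpace G] [BorelSpace G] (μ : Measure G) [μ.IsMulLeftInvariant] [IsFiniteMeasure μ]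
  [μ.OuterRegular]

/-- **a coset of good elements** -/
theorem coset_good {X : Set G} (hX : IsClosed X) (hpos : μ X ≠ 0) (H : Subgroup G)
    (hH : IsOpen (H : Set G)) {M N : ℕ} (h : ∀ x ∈ X, (ρ x ^ M - 1) ^ N = 0) :
    ∃ (U : Subgroup G) (g : G), U.Normal ∧ IsOpen (U : Set G) ∧ U ≤ H ∧ g ∈ X ∧
      ∀ y, g⁻¹ * y ∈ U → (ρ y ^ M - 1) ^ N = 0 := by
  have hdeg : Deg ρ (1 * M * N) (fun g => (ρ g ^ M - 1) ^ N) :=
    (((deg_self ρ).pow M).sub (deg_one ρ _)).pow N
  have hfd := finiteDimensional_pow ρ (1 * M * N)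
  set L := L1 ρ ^ (1 * M * N) with hL
  set D : ℕ := finrank K L with hD
  have hε : ((D : ℝ≥0∞) + 1)⁻¹ ≠ 0 := ENNReal.inv_ne_zero.2 (by finiteness)
  obtain ⟨U, g, hUn, hUo, hUH, hg, hμ⟩ := dense_coset μ hX hpos H hH hε
  refine ⟨U, g, hUn, hUo, hUH, hg, fun y hy => ?_⟩
  have hμ2 : ((D : ℝ≥0∞) + 1) * μ ({y | g⁻¹ * y ∈ U} \ X) < μ (U : Set G) := by
    have h1 : ((D : ℝ≥0∞) + 1) ≠ 0 := by positivity
    have h2 : ((D : ℝ≥0∞) + 1) ≠ ⊤ := by finiteness
    rw [mul_comm]
    rw [mul_comm, ← div_eq_mul_inv] at hμ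
    exact (ENNReal.lt_div_iff_mul_lt (Or.inl h1) (Or.inl h2)).1 hμ
  have hμ3 : (D : ℝ≥0∞) * μ ({y | g⁻¹ * y ∈ U} \ X) < μ (U : Set G) := by
    refine lt_of_le_of_lt ?_ hμ2
    gcongr
    exact le_self_add
  ext v
  rw [LinearMap.zero_apply, ← Module.forall_dual_apply_eq_zero_iff K]
  intro φ
  refine vanish_coset μ L (fun f hf g₀ => trans_mem_pow ρ _ hf g₀) hUn g hμ3 (hdeg φ v) ?_ y hy
  intro x hx
  change φ (((ρ x ^ M - 1) ^ N) v) = 0
  rw [h x hx]
  simp

end Pool.Agent.U849.SS
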