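import Pool.Agent.U849.SS.Fam

/-!
# Rational Frobenius polynomials
-/

set_option autoImplicit false
set_option linter.unusedSectionVars false

namespace Pool.Agent.U849.SS

open NumberField Filter Topology IsDedekindDomain Pool.Agent.W401.Cheb Pool.Agent.R401.Sup
open Pool.Agent.W569.FM Pool.Agent.R401.Img Pool.Agent.R401.Eng Pool.Agent.R401.Sup2
open Pool.Agent.R401.Sup3 Pool.Agent.R401.Sup4 Polynomial Matrix

/-- the roots of unity which occur have bounded order -/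
theorem exists_exp_rat (n : ℕ) : ∃ M : ℕ, 0 < M ∧ ∀ (p : ℚ[X]), p ≠ 0 → p.natDegree ≤ n →
    ∀ (s : ℕ), 0 < s → ∀ z : ℂ, (p.map (algebraMap ℚ ℂ)).IsRoot z →
      (∃ k : ℕ, 0 < k ∧ z ^ k = (s : ℂ) ^ k) → z ^ M = (s : ℂ) ^ M := by
  obtain ⟨M, hM0, hM⟩ := exists_exp n
  refine ⟨M, hM0, ?_⟩
  intro p hp0 hdeg s hs z hz hk
  obtain ⟨k, hk0, hzk⟩ := hk
  have hs0 : (s : ℂ) ≠ 0 := by exact_mod_cast hs.ne'
  have hs0' : (s : ℚ) ≠ 0 := by exact_mod_cast hs.ne'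
  set y : ℂ := z / s with hy
  have hzy : z = s * y := by rw [hy, mul_div_cancel₀ _ hs0]
  have hyk : y ^ k = 1 := by rw [hy, div_pow, hzk, div_self (pow_ne_zero _ hs0)]
  have hprim : IsPrimitiveRoot y (orderOf y) := IsPrimitiveRoot.orderOf y
  have hpos : 0 < orderOf y := orderOf_pos_iff.2 (isOfFinOrder_iff_pow_eq_one.2 ⟨k, hk0, hyk⟩)
  have hmin : cyclotomic (orderOf y) ℚ = minpoly ℚ y := cyclotomic_eq_minpoly_rat hprim hpos
  have hdeg2 : (cyclotomic (orderOf y) ℤ).natDegree ≤ n := by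
    have h1 : (cyclotomic (orderOf y) ℤ).natDegree = (minpoly ℚ y).natDegree := by
      rw [← hmin, natDegree_cyclotomic, natDegree_cyclotomic]
    rw [h1]
    have hX : (C (s : ℚ) * X : ℚ[X]).natDegree = 1 := natDegree_C_mul_X _ hs0'
    have h2 : (p.comp (C (s : ℚ) * X)) ≠ 0 := by
      intro h0
      have h3 := congrArg natDegree h0
      rcases comp_eq_zero_iff.1 h0 with h4 | ⟨-, h4⟩
      · exact hp0 h4
      · rw [h4, natDegree_C] at hX
        exact absurd hX zero_ne_one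
    have h3 : minpoly ℚ y ∣ p.comp (C (s : ℚ) * X) := by
      apply minpoly.dvd
      rw [aeval_comp, map_mul, aeval_C, aeval_X]
      have h4 : algebraMap ℚ ℂ (s : ℚ) * y = z := by rw [map_natCast, ← hzy]
      rw [h4]
      have h5 := hz.eq_zero
      rwa [eval_map_algebraMap] at h5
    have h4 := natDegree_le_of_dvd h3 h2
    rw [natDegree_comp, hX, mul_one] at h4
    exact h4.trans hdeg
  have h1 := hM (cyclotomic (orderOf y) ℤ) (cyclotomic.monic _ _) hdeg2 (by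
    intro x hx
    rw [map_cyclotomic_int] at hx
    have : NeZero ((orderOf y : ℕ) : ℂ) := ⟨by exact_mod_cast hpos.ne'⟩
    rw [isRoot_cyclotomic_iff] at hx
    exact hx.norm'_eq_one hpos.ne') y (by
    rw [map_cyclotomic_int]
    have : NeZero ((orderOf y : ℕ) : ℂ) := ⟨by exact_mod_cast hpos.ne'⟩
    rw [isRoot_cyclotomic_iff]
    exact hprim)
  rw [hzy, mul_pow, h1, mul_one]

/-- the matrix is unipotent up to its finite order part -/
theorem unip_of_rat {F : Type} [Field F] [CharZero F] {n M : ℕ} (A : Matrix (Fin n) (Fin n) F) {p : ℚ[X]}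
    (hp : p.Monic) (hA : A.charpoly = p.map (algebraMap ℚ F)) (s : ℕ)
    (hz : ∀ z : ℂ, (p.map (algebraMap ℚ ℂ)).IsRoot z → z ^ M = (s : ℂ) ^ M) :
    (A ^ M - (s : Matrix (Fin n) (Fin n) F) ^ M) ^ n = 0 := by
  classical
  set G : ℚ[X] := (X ^ M - (s : ℚ[X]) ^ M) ^ n with hG
  have hdeg : p.natDegree = n := by
    have h1 := congrArg natDegree hA
    rw [Matrix.charpoly_natDegree_eq_dim, Fintype.card_fin, hp.natDegree_map] at h1
    exact h1.symm
  have hdvd : p ∣ G := by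
    rw [← map_dvd_map' (algebraMap ℚ ℂ)]
    have hsp : (p.map (algebraMap ℚ ℂ)) =
        ((p.map (algebraMap ℚ ℂ)).roots.map fun a => X - C a).prod :=
      (IsAlgClosed.splits _).eq_prod_roots_of_monic (hp.map _)
    have hcard : (p.map (algebraMap ℚ ℂ)).roots.card = n := by
      rw [← (IsAlgClosed.splits (p.map (algebraMap ℚ ℂ))).natDegree_eq_card_roots,
        hp.natDegree_map, hdeg]
    have h1 : ((p.map (algebraMap ℚ ℂ)).roots.map fun a => X - C a).prod ∣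
        ((p.map (algebraMap ℚ ℂ)).roots.map fun _ => (X ^ M - (s : ℂ[X]) ^ M)).prod := by
      apply Multiset.prod_dvd_prod_of_dvd
      intro a ha
      rw [dvd_iff_isRoot, IsRoot.def]
      simp [hz a (isRoot_of_mem_roots ha)]
    rw [← hsp, Multiset.map_const', Multiset.prod_replicate, hcard] at h1
    have h2 : G.map (algebraMap ℚ ℂ) = (X ^ M - (s : ℂ[X]) ^ M) ^ n := by
      rw [hG]
      simp
    rw [h2]
    exact h1
  obtain ⟨k, hk⟩ := hdvd
  have h1 : aeval A (G.map (algebraMap ℚ F)) = 0 := by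
    rw [hk, Polynomial.map_mul, map_mul, ← hA, Matrix.aeval_self_charpoly, zero_mul]
  have h2 : G.map (algebraMap ℚ F) = (X ^ M - (s : F[X]) ^ M) ^ n := by
    rw [hG]
    simp
  rw [h2] at h1
  simpa using h1

/-- eigenvalues -/
theorem eigen_pow {F : Type} [Field F] {E : Type} [Field E] [Algebra F E] {n : ℕ} (A : Matrix (Fin n) (Fin n) F) {s : F} {m : ℕ}
    (h : IsNilpotent (A ^ m - s ^ m • (1 : Matrix (Fin n) (Fin n) F))) {z : E}
    (hz : (A.charpoly.map (algebraMap F E)).IsRoot z) : z ^ m = (algebraMap F E s) ^ m := by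
  classical
  set A' : Matrix (Fin n) (Fin n) E := A.map (algebraMap F E) with hA'
  have h' : IsNilpotent (A' ^ m - (algebraMap F E s) ^ m • (1 : Matrix (Fin n) (Fin n) E)) := by
    have h1 := h.map ((algebraMap F E).mapMatrix (m := Fin n))
    have h2 : (algebraMap F E).mapMatrix (A ^ m - s ^ m • (1 : Matrix (Fin n) (Fin n) F)) =
        A' ^ m - (algebraMap F E s) ^ m • (1 : Matrix (Fin n) (Fin n) E) := by
      rw [map_sub, map_pow]
      congr 1
      ext i j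
      rw [RingHom.mapMatrix_apply, Matrix.map_apply, Matrix.smul_apply, Matrix.smul_apply,
        Matrix.one_apply, Matrix.one_apply]
      split_ifs <;> simp
    rwa [h2] at h1
  have hz1 : A'.charpoly.eval z = 0 := by
    rw [hA', Matrix.charpoly_map]
    exact hz
  rw [Matrix.eval_charpoly] at hz1
  obtain ⟨x, hx0, hx⟩ := Matrix.exists_mulVec_eq_zero_iff.2 hz1
  have hx1 : A' *ᵥ x = z • x := by
    rw [Matrix.sub_mulVec, sub_eq_zero, Matrix.scalar_apply, Matrix.diagonal_const_mulVec] at hx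
    exact hx.symm
  have hx2 : ∀ k : ℕ, (A' ^ k) *ᵥ x = z ^ k • x := by
    intro k
    induction k with
    | zero => simp
    | succ k ih => rw [pow_succ', ← Matrix.mulVec_mulVec, ih, Matrix.mulVec_smul, hx1, smul_smul, pow_succ]
  obtain ⟨N, hN⟩ := h'
  have hx3 : ∀ k : ℕ, ((A' ^ m - (algebraMap F E s) ^ m • (1 : Matrix (Fin n) (Fin n) E)) ^ k) *ᵥ x =
      (z ^ m - (algebraMap F E s) ^ m) ^ k • x := by
    intro k
    induction k with
    | zero => simp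
    | succ k ih =>
      rw [pow_succ', ← Matrix.mulVec_mulVec, ih, Matrix.mulVec_smul, Matrix.sub_mulVec, hx2,
        Matrix.smul_mulVec, Matrix.one_mulVec, ← sub_smul, smul_smul, pow_succ]
  have hx4 := hx3 N
  rw [hN, Matrix.zero_mulVec] at hx4
  rcases smul_eq_zero.1 hx4.symm with h7 | h7
  · exact sub_eq_zero.1 (eq_zero_of_pow_eq_zero h7)
  · exact absurd h7 hx0

/-- the characteristic polynomial divides -/
theorem charpoly_dvd_rat {F : Type} [Field F] [CharZero F] {n : ℕ} (A : Matrix (Fin n) (Fin n) F) {s m : ℕ}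
    (h : IsNilpotent (A ^ m - (s : Matrix (Fin n) (Fin n) F) ^ m)) {p : ℚ[X]} (hp : p.Monic)
    (hA : A.charpoly = p.map (algebraMap ℚ F)) : p ∣ (X ^ m - (s : ℚ[X]) ^ m) ^ n := by
  classical
  have hdeg : p.natDegree = n := by
    have h1 := congrArg natDegree hA
    rw [Matrix.charpoly_natDegree_eq_dim, Fintype.card_fin, hp.natDegree_map] at h1
    exact h1.symm
  have h' : IsNilpotent (A ^ m - (s : F) ^ m • (1 : Matrix (Fin n) (Fin n) F)) := by
    have h6 : (s : Matrix (Fin n) (Fin n) F) = (s : F) • 1 := by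
      rw [Nat.cast_smul_eq_nsmul, nsmul_one]
    rwa [h6, _root_.smul_pow, one_pow] at h
  let E := AlgebraicClosure F
  set f : ℚ →+* E := algebraMap ℚ E with hf
  have hA'c : A.charpoly.map (algebraMap F E) = p.map f := by
    rw [hA, Polynomial.map_map]
    congr 1
  have hroot : ∀ z ∈ (p.map f).roots, z ^ m = (s : E) ^ m := by
    intro z hz
    rw [← hA'c] at hz
    have h1 := eigen_pow (E := E) A h' (isRoot_of_mem_roots hz)
    rwa [map_natCast] at h1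
  rw [← map_dvd_map' f]
  have hsp : (p.map f) = ((p.map f).roots.map fun a => X - C a).prod :=
    (IsAlgClosed.splits _).eq_prod_roots_of_monic (hp.map _)
  have hcard : (p.map f).roots.card = n := by
    rw [← (IsAlgClosed.splits (p.map f)).natDegree_eq_card_roots, hp.natDegree_map, hdeg]
  have h1 : ((p.map f).roots.map fun a => X - C a).prod ∣
      ((p.map f).roots.map fun _ => (X ^ m - (s : E[X]) ^ m)).prod := by
    apply Multiset.prod_dvd_prod_of_dvd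
    intro a ha
    rw [dvd_iff_isRoot, IsRoot.def]
    simp [hroot a ha]
  rw [← hsp, Multiset.map_const', Multiset.prod_replicate, hcard] at h1
  have h2 : ((X ^ m - (s : ℚ[X]) ^ m) ^ n).map f = (X ^ m - (s : E[X]) ^ m) ^ n := by
    simp
  rw [h2]
  exact h1

variable {K : Type} [Field K] [NumberField K] {n : ℕ}

/-- a prime number `ℓ` which is not below `v` -/
theorem exists_prime (v : HeightOneSpectrum (𝓞 K)) :
    ∃ ℓ : ℕ, ∃ _ : Fact ℓ.Prime, (ℓ : 𝓞 K) ∉ v.asIdeal := by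
  by_cases h2 : ((2 : ℕ) : 𝓞 K) ∈ v.asIdeal
  · refine ⟨3, ⟨Nat.prime_three⟩, fun h3 => ?_⟩
    apply v.isPrime.ne_top
    rw [Ideal.eq_top_iff_one]
    have h4 := v.asIdeal.sub_mem h3 h2
    have h5 : ((3 : ℕ) : 𝓞 K) - ((2 : ℕ) : 𝓞 K) = 1 := by
      push_cast
      norm_num
    rwa [h5] at h4
  · exact ⟨2, ⟨Nat.prime_two⟩, h2⟩

/-- **The main theorem on families with rational Frobenius polynomials.** -/
theorem rat_family (hn : 0 < n)
    (V : ∀ (ℓ : ℕ) [Fact ℓ.Prime], GK K →* GL (Fin n) ℚ_[ℓ])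
    (hV : ∀ (ℓ : ℕ) [Fact ℓ.Prime], Continuous (V ℓ)) (u : ℕ)
    (B : Set (HeightOneSpectrum (𝓞 K))) (hB : B.Finite) (P : HeightOneSpectrum (𝓞 K) → ℚ[X])
    (hP : ∀ (ℓ : ℕ) [Fact ℓ.Prime], ∀ v, v ∉ B → (ℓ : 𝓞 K) ∉ v.asIdeal → ∀ g, IsFrob v g →
        (mt (V ℓ) g⁻¹).charpoly = (P v).map (algebraMap ℚ ℚ_[ℓ]))
    (S : HeightOneSpectrum (𝓞 K) → Prop)
    (hS : ∀ v, v ∉ B → S v → ∀ z : ℂ, ((P v).map (algebraMap ℚ ℂ)).IsRoot z →
      ∃ k : ℕ, 0 < k ∧ z ^ k = ((Ideal.absNorm v.asIdeal ^ u : ℕ) : ℂ) ^ k)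
    (θ : ℝ) (hθ : θ < 1 / (n : ℝ))
    (hss : ∃ᶠ x : ℕ in atTop, dens (fun v : HeightOneSpectrum (𝓞 K) => ¬ S v) x ≤ θ) :
    (∀ v, v ∉ B → (P v).Monic) ∧
    ∃ (φ : GK K → ℚ) (U : Subgroup (GK K)), U.Normal ∧
      IsOpen (U : Set (GK K)) ∧ (∀ x ∈ U, ∀ y, φ (x * y) = φ y) ∧
      ∀ (ℓ : ℕ) [Fact ℓ.Prime] (y : GK K),
        (tw (V ℓ) (cyc K ℓ ℚ_[ℓ]) (-(u : ℤ)) y).trace = (φ y : ℚ_[ℓ]) := by
  classical
  have hN0 : ∀ v : HeightOneSpectrum (𝓞 K), 0 < Ideal.absNorm v.asIdeal := fun v =>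
    Nat.pos_of_ne_zero (fun h0 => v.ne_bot (Ideal.absNorm_eq_zero_iff.1 h0))
  have hn' : (0 : ℝ) < n := by exact_mod_cast hn
  have hmon : ∀ v, v ∉ B → (P v).Monic := by
    intro v hv
    obtain ⟨ℓ, hℓp, hℓ⟩ := exists_prime v
    obtain ⟨g, hg⟩ := Pool.Agent.W401.Frob.exists_frob v
    have h1 := hP ℓ v hv hℓ g hg
    apply monic_of_injective (algebraMap ℚ ℚ_[ℓ]).injective
    rw [← h1]
    exact Matrix.charpoly_monic _
  refine ⟨hmon, ?_⟩
  obtain ⟨M, hM0, hM⟩ := exists_exp_rat n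
  set T : Set (HeightOneSpectrum (𝓞 K)) := {v | v ∉ B ∧ S v} with hT
  have hTM : ∀ (ℓ : ℕ) [Fact ℓ.Prime], ∀ v ∈ T, (ℓ : 𝓞 K) ∉ v.asIdeal → ∀ g,
      IsFrob v g → (mt (V ℓ) g⁻¹ ^ M -
        (((Ideal.absNorm v.asIdeal) ^ u : ℕ) : Matrix (Fin n) (Fin n) ℚ_[ℓ]) ^ M) ^ n = 0 := by
    intro ℓ _ v hv hℓ g hg
    have hA := hP ℓ v hv.1 hℓ g hg
    have hdeg : (P v).natDegree = n := by
      have h1 := congrArg natDegree hA
      rw [Matrix.charpoly_natDegree_eq_dim, Fintype.card_fin, (hmon v hv.1).natDegree_map] at h1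
      exact h1.symm
    refine unip_of_rat _ (hmon v hv.1) hA ((Ideal.absNorm v.asIdeal) ^ u) ?_
    intro z hz
    exact hM (P v) (hmon v hv.1).ne_zero hdeg.le _ (pow_pos (hN0 v) u) z hz (hS v hv.1 hv.2 z hz)
  have hdens : ∃ θ' : ℝ, θ' * n < 1 ∧ ∃ᶠ N : ℕ in atTop,
      dens (fun v : HeightOneSpectrum (𝓞 K) => v ∉ T) N ≤ θ' := by
    have hθn : θ * n < 1 := (lt_div_iff₀ hn').1 hθ
    set ε : ℝ := (1 - θ * n) / (2 * n) with hε
    have hε0 : 0 < ε := div_pos (by linarith) (by positivity)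
    refine ⟨θ + ε, ?_, ?_⟩
    · have h1 : ε * n = (1 - θ * n) / 2 := by
        rw [hε]
        field_simp
      rw [add_mul, h1]
      linarith
    · have hBd : ∀ᶠ N : ℕ in atTop,
          dens (fun v : HeightOneSpectrum (𝓞 K) => v ∈ B) N ≤ ε :=
        (dens_fin (fun v : HeightOneSpectrum (𝓞 K) => v ∈ B) hB).eventually (ge_mem_nhds hε0)
      refine (hss.and_eventually hBd).mono ?_
      rintro N ⟨h1, h2⟩
      have h5 : dens (fun v : HeightOneSpectrum (𝓞 K) => v ∉ T) N ≤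
          dens (fun v : HeightOneSpectrum (𝓞 K) => (¬ S v) ∨ v ∈ B) N := by
        refine dens_le ?_ N
        intro v hv
        by_cases hvB : v ∈ B
        · exact Or.inr hvB
        · exact Or.inl fun hs => hv ⟨hvB, hs⟩
      have h6 := h5.trans (card_or _ _ N)
      linarith
  obtain ⟨θ', hθ', hdens⟩ := hdens
  have hU := fun (ℓ : ℕ) [Fact ℓ.Prime] => one_trace hn (V ℓ) (hV ℓ) u hM0 T (hTM ℓ) θ' hθ' hdens
  have hne : Nonempty (Fin n) := ⟨⟨0, hn⟩⟩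
  exact fam V B hB (fun v => -((P v).coeff (n - 1) : ℚ)) u (by
      intro ℓ _ v hv hℓ g hg
      have h1 := hP ℓ v hv hℓ g hg
      rw [Matrix.trace_eq_neg_charpoly_coeff, h1, coeff_map, Fintype.card_fin]
      push_cast
      rfl) hU

/-- all good places -/
theorem rat_roots (V : ∀ (ℓ : ℕ) [Fact ℓ.Prime], GK K →* GL (Fin n) ℚ_[ℓ]) (u : ℕ)
    (B : Set (HeightOneSpectrum (𝓞 K))) (P : HeightOneSpectrum (𝓞 K) → ℚ[X])
    (hP : ∀ (ℓ : ℕ) [Fact ℓ.Prime], ∀ v, v ∉ B → (ℓ : 𝓞 K) ∉ v.asIdeal → ∀ g, IsFrob v g →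
        (mt (V ℓ) g⁻¹).charpoly = (P v).map (algebraMap ℚ ℚ_[ℓ]))
    (hmon : ∀ v, v ∉ B → (P v).Monic) (φ : GK K → ℚ) (U : Subgroup (GK K)) (hUn : U.Normal)
    (hUφ : ∀ x ∈ U, ∀ y, φ (x * y) = φ y)
    (hφ : ∀ (ℓ : ℕ) [Fact ℓ.Prime] (y : GK K),
        (tw (V ℓ) (cyc K ℓ ℚ_[ℓ]) (-(u : ℤ)) y).trace = (φ y : ℚ_[ℓ])) (v : HeightOneSpectrum (𝓞 K))
    (hv : v ∉ B) (z : ℂ) (hz : ((P v).map (algebraMap ℚ ℂ)).IsRoot z) :
    ∃ ζ : ℂ, ζ ^ U.index = 1 ∧ z = (Ideal.absNorm v.asIdeal : ℂ) ^ u * ζ := by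
  have hN0 : 0 < Ideal.absNorm v.asIdeal :=
    Nat.pos_of_ne_zero (fun h0 => v.ne_bot (Ideal.absNorm_eq_zero_iff.1 h0))
  obtain ⟨ℓ, hℓp, hℓ⟩ := exists_prime v
  obtain ⟨g, hg⟩ := Pool.Agent.W401.Frob.exists_frob v
  have h1 := all_places (V ℓ) u φ U hUn hUφ (hφ ℓ) hℓ hg
  obtain ⟨k, hk⟩ := charpoly_dvd_rat _ h1 (hmon v hv) (hP ℓ v hv hℓ g hg)
  have h3 : ((X ^ U.index - (((Ideal.absNorm v.asIdeal) ^ u : ℕ) : ℚ[X]) ^ U.index) ^ n).map
      (algebraMap ℚ ℂ) = (P v).map (algebraMap ℚ ℂ) * k.map (algebraMap ℚ ℂ) := by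
    rw [hk, Polynomial.map_mul]
  have h4 := congrArg (eval z) h3
  rw [eval_mul, hz.eq_zero, zero_mul] at h4
  simp only [Polynomial.map_pow, Polynomial.map_sub, map_X, Polynomial.map_natCast, eval_pow,
    eval_sub, eval_X, eval_natCast] at h4
  have h5 : z ^ U.index = ((Ideal.absNorm v.asIdeal : ℂ) ^ u) ^ U.index := by
    have h6 := eq_zero_of_pow_eq_zero h4
    rw [sub_eq_zero] at h6
    rw [h6]
    push_cast
    rfl
  have hs0 : ((Ideal.absNorm v.asIdeal : ℂ) ^ u) ≠ 0 := by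
    apply pow_ne_zero
    exact_mod_cast hN0.ne'
  refine ⟨z / (Ideal.absNorm v.asIdeal : ℂ) ^ u, ?_, ?_⟩
  · rw [div_pow, h5, div_self (pow_ne_zero _ hs0)]
  · rw [mul_div_cancel₀ _ hs0]

end Pool.Agent.U849.SS
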