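import Pool.Agent.U849.SS.Rat

/-!
# The Weil groups of all places
-/

set_option autoImplicit false
set_option linter.unusedSectionVars false

namespace Pool.Agent.U849.SS

open NumberField Filter Topology IsDedekindDomain Pool.Agent.W401.Cheb Pool.Agent.R401.Sup
open Pool.Agent.W569.FM Pool.Agent.R401.Img Pool.Agent.R401.Eng Pool.Agent.R401.Sup2
open Pool.Agent.R401.Sup3 Pool.Agent.R401.Sup4 Polynomial Matrix
open Pool.Agent.R401.Tr3 Pool.Agent.R401.Tr4 Pool.Agent.R401.Tr5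

variable {K : Type} [Field K] [NumberField K] {n : ℕ}

open Pool.Agent.W401.Frob in
/-- a Frobenius element at a given ideal -/
theorem exists_frob_at (v : HeightOneSpectrum (𝓞 K)) (Q : Ideal (𝓞 (AlgebraicClosure K)))
    (hQm : Q.IsMaximal) (hQv : Q.comap (algebraMap (𝓞 K) (𝓞 (AlgebraicClosure K))) = v.asIdeal) :
    ∃ σ : GK K, ∀ x : 𝓞 (AlgebraicClosure K), σ • x - x ^ Ideal.absNorm v.asIdeal ∈ Q := by
  classical
  obtain ⟨σ₀, Q₀, hQ₀m, hQ₀v, hσ₀⟩ := Pool.Agent.W401.Frob.exists_frob v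
  have : SMulCommClass (GK K) (𝓞 K) (𝓞 (AlgebraicClosure K)) := smulComm
  have : Algebra.IsInvariant (𝓞 K) (𝓞 (AlgebraicClosure K)) (GK K) := isInv
  let _ : TopologicalSpace (𝓞 (AlgebraicClosure K)) := ⊥
  have : DiscreteTopology (𝓞 (AlgebraicClosure K)) := ⟨rfl⟩
  have : ContinuousSMul (GK K) (𝓞 (AlgebraicClosure K)) := by
    rw [continuousSMul_iff_stabilizer_isOpen]
    intro x
    have h1 := stabilizer_isOpen_of_isIntegral (K := K) (x : AlgebraicClosure K)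
    convert h1 using 2
    ext g
    rw [MulAction.mem_stabilizer_iff, MulAction.mem_stabilizer_iff]
    constructor
    · intro h
      exact congrArg (fun z : (𝓞 (AlgebraicClosure K)) => (z : AlgebraicClosure K)) h
    · intro h
      exact RingOfIntegers.ext h
  obtain ⟨ρ, hρ⟩ := Algebra.IsInvariant.exists_smul_of_under_eq_of_profinite (A := 𝓞 K)
    (G := GK K) Q₀ Q (hQ₀v.trans hQv.symm)
  have hρ' : Q = tr ρ Q₀ := by
    rw [hρ]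
    ext x
    rw [mem_tr]
    exact Ideal.mem_pointwise_smul_iff_inv_smul_mem
  refine ⟨ρ * σ₀ * ρ⁻¹, fun x => ?_⟩
  rw [hρ']
  exact frob_conj v σ₀ ρ Q₀ hσ₀ x

/-- the elements of the Weil group -/
theorem weil (ρ : ∀ (ℓ : ℕ) [Fact ℓ.Prime], GK K →* GL (Fin n) ℚ_[ℓ]) (u : ℕ)
    (φ : GK K → ℚ) (U : Subgroup (GK K)) (hUn : U.Normal) (hUo : IsOpen (U : Set (GK K)))
    (hU : ∀ x ∈ U, ∀ y, φ (x * y) = φ y)
    (hφ : ∀ (ℓ : ℕ) [Fact ℓ.Prime] (y : GK K),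
      (tw (ρ ℓ) (cyc K ℓ ℚ_[ℓ]) (-(u : ℤ)) y).trace = (φ y : ℚ_[ℓ]))
    {P : Ideal (OO K)} (hP : P.IsMaximal) {q : ℕ} {σ : GK K} (hσ : FrobAt q P σ) :
    ∃ R : ℤ[X], (∀ (ℓ : ℕ) [Fact ℓ.Prime], (ℓ : OO K) ∉ P →
      (mt (ρ ℓ) σ⁻¹).charpoly = R.map (Int.castRingHom ℚ_[ℓ])) ∧
      ∀ z : ℂ, (R.map (Int.castRingHom ℂ)).IsRoot z →
        z ^ U.index = ((q : ℂ) ^ u) ^ U.index := by
  classical
  set s : ℕ → ℚ := fun k => ((q : ℚ) ^ u) ^ k * φ (σ⁻¹ ^ k) with hs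
  have hcoeff : ∀ (ℓ : ℕ) [Fact ℓ.Prime], (ℓ : OO K) ∉ P → ∀ k,
      (mt (ρ ℓ) σ⁻¹).charpolyRev.coeff k = (cf s k : ℚ_[ℓ]) := by
    intro ℓ _ hℓP k
    apply coeff_eq
    intro k
    rw [Pool.Agent.R401.Tr6.mt_pow (ρ ℓ) u hP hσ hℓP, Matrix.trace_smul, hφ, hs, smul_eq_mul]
    push_cast
    rfl
  have hcoeff2 : ∀ (ℓ : ℕ) [Fact ℓ.Prime], (ℓ : OO K) ∉ P → ∀ k, k ≤ n →
      (mt (ρ ℓ) σ⁻¹).charpoly.coeff k = (cf s (n - k) : ℚ_[ℓ]) := by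
    intro ℓ _ hℓP k hk
    rw [← hcoeff ℓ hℓP, ← Matrix.reverse_charpoly, coeff_reverse,
      Matrix.charpoly_natDegree_eq_dim, Fintype.card_fin, revAt_le (Nat.sub_le n k),
      Nat.sub_sub_self hk]
  obtain ⟨ℓ₀, hℓ₀, hℓ₀P⟩ := Pool.Agent.R401.Tr6.exists_prime_not_mem hP
  have : Fact ℓ₀.Prime := ⟨hℓ₀⟩
  have hint : ∀ k, ∃ c : ℤ, cf s k = c := by
    intro k
    have h1 := hcoeff ℓ₀ hℓ₀P k
    obtain ⟨f, hf, hf0⟩ := Pool.Agent.R401.Tr6.exists_monic (ρ ℓ₀) u φ U hUn hUo hU (hφ ℓ₀) hP hσ hℓ₀P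
    have h2 := coeff_charpoly_integral (mt (ρ ℓ₀) σ⁻¹) f hf hf0
    have h3 : IsIntegral ℤ ((mt (ρ ℓ₀) σ⁻¹).charpolyRev.coeff k) := by
      rw [← Matrix.reverse_charpoly, coeff_reverse]
      exact h2 _
    rw [h1] at h3
    have h4 : IsIntegral ℤ (cf s k) := by
      have h5 : ((cf s k : ℚ) : ℚ_[ℓ₀]) = algebraMap ℚ ℚ_[ℓ₀] (cf s k) := by simp
      rw [h5] at h3
      exact (isIntegral_algebraMap_iff (algebraMap ℚ ℚ_[ℓ₀]).injective).1 h3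
    obtain ⟨c, hc⟩ := IsIntegrallyClosed.isIntegral_iff.1 h4
    exact ⟨c, hc.symm⟩
  choose c hc using hint
  set R : ℤ[X] := ∑ k ∈ Finset.range (n + 1), C (c (n - k)) * X ^ k with hR
  have hRm : ∀ (ℓ : ℕ) [Fact ℓ.Prime], (ℓ : OO K) ∉ P →
      (mt (ρ ℓ) σ⁻¹).charpoly = R.map (Int.castRingHom ℚ_[ℓ]) := by
    intro ℓ _ hℓP
    refine Polynomial.ext fun k => ?_
    rw [coeff_map, hR, finset_sum_coeff]
    simp only [coeff_C_mul, coeff_X_pow, mul_ite, mul_one, mul_zero]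
    rw [Finset.sum_ite_eq, eq_intCast]
    split_ifs with hk
    · rw [Finset.mem_range] at hk
      rw [hcoeff2 ℓ hℓP k (by omega), hc]
      norm_cast
    · rw [Finset.mem_range] at hk
      rw [coeff_eq_zero_of_natDegree_lt]
      · norm_cast
      · rw [Matrix.charpoly_natDegree_eq_dim, Fintype.card_fin]
        omega
  refine ⟨R, hRm, ?_⟩
  intro z hz
  have hmon : R.Monic := by
    apply monic_of_injective (RingHom.injective_int (Int.castRingHom ℚ_[ℓ₀]))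
    rw [← hRm ℓ₀ hℓ₀P]
    exact Matrix.charpoly_monic _
  have hnil : IsNilpotent (mt (ρ ℓ₀) σ⁻¹ ^ U.index - ((q ^ u : ℕ) :
      Matrix (Fin n) (Fin n) ℚ_[ℓ₀]) ^ U.index) := by
    obtain ⟨e, he⟩ := Pool.Agent.R401.Tr6.unip (ρ ℓ₀) u φ U hU (hφ ℓ₀) (σ⁻¹ ^ U.index)
      (Subgroup.pow_index_mem U σ⁻¹)
    have h5 : ((q ^ u : ℕ) : Matrix (Fin n) (Fin n) ℚ_[ℓ₀]) = ((q : ℚ_[ℓ₀]) ^ u) • 1 := by
      rw [← Nat.cast_pow, Nat.cast_smul_eq_nsmul, nsmul_one]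
    rw [Pool.Agent.R401.Tr6.mt_pow (ρ ℓ₀) u hP hσ hℓ₀P, h5, _root_.smul_pow, one_pow, ← smul_sub]
    exact IsNilpotent.smul ⟨e, he⟩ _
  obtain ⟨k, hk⟩ := charpoly_dvd _ _ _ hnil hmon (hRm ℓ₀ hℓ₀P)
  have h3 := congrArg (fun f => eval z (f.map (Int.castRingHom ℂ))) hk
  simp only [Polynomial.map_mul, eval_mul, hz.eq_zero, zero_mul] at h3
  simp only [Polynomial.map_pow, Polynomial.map_sub, map_X, Polynomial.map_natCast, eval_pow,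
    eval_sub, eval_X, eval_natCast] at h3
  have h6 := eq_zero_of_pow_eq_zero h3
  rw [sub_eq_zero] at h6
  rw [h6]
  push_cast
  rfl

/-- the inertia groups -/
theorem inert {ℓ : ℕ} [Fact ℓ.Prime] (ρ : GK K →* GL (Fin n) ℚ_[ℓ]) (hρ : Continuous ρ) (u : ℕ)
    (φ : GK K → ℚ) (U : Subgroup (GK K)) (hUn : U.Normal) (hUo : IsOpen (U : Set (GK K)))
    (hU : ∀ x ∈ U, ∀ y, φ (x * y) = φ y)
    (hφ : ∀ y : GK K, (tw ρ (cyc K ℓ ℚ_[ℓ]) (-(u : ℤ)) y).trace = (φ y : ℚ_[ℓ]))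
    (v : HeightOneSpectrum (𝓞 K)) (Q : Ideal (𝓞 (AlgebraicClosure K)))
    (hQm : Q.IsMaximal) (hQv : Q.comap (algebraMap (𝓞 K) (𝓞 (AlgebraicClosure K))) = v.asIdeal)
    (hv : (ℓ : 𝓞 K) ∉ v.asIdeal) {τ : GK K} (hτU : τ ∈ U) (hτ : InInertia Q τ) : ρ τ = 1 := by
  obtain ⟨σ, hσ⟩ := exists_frob_at v Q hQm hQv
  have hℓQ : (ℓ : 𝓞 (AlgebraicClosure K)) ∉ Q := by
    intro h
    apply hv
    rw [← hQv, Ideal.mem_comap, map_natCast]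
    exact h
  have hq : 2 ≤ Ideal.absNorm v.asIdeal := by
    have h0 : Ideal.absNorm v.asIdeal ≠ 0 := fun h0 => v.ne_bot (Ideal.absNorm_eq_zero_iff.1 h0)
    have h1 : Ideal.absNorm v.asIdeal ≠ 1 := fun h1 =>
      v.isPrime.ne_top (Ideal.absNorm_eq_one_iff.1 h1)
    omega
  have h1 := Pool.Agent.R401.Tr6.triv ρ hρ u φ U hUn hUo hU hφ hQm hq hσ hℓQ hτU hτ
  rw [Pool.Agent.R401.Tr6.tw_inert ρ u hQm hσ hℓQ hτ] at h1
  exact Units.ext h1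

end Pool.Agent.U849.SS
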